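import Pool.Agent.Y112.SC.Main

/-!
# The definitions of the statement about mixed tensor constructions

`mix M N l` is the object `X₁ ⊗ (X₂ ⊗ (... ⊗ N))`, where each `X_j` is `M` or its dual. The Lie algebra
object `gl(M) = M ⊗ Mᘁ` acts on it; the action is given by the endomorphism `om` of `M ⊗ mix M N l`
(the split Casimir element). `Brauer` are the morphisms of the walled Brauer category.
-/

set_option autoImplicit false
set_option linter.unusedSectionVars false
set_option linter.unusedSimpArgs false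
set_option backward.isDefEq.respectTransparency false
set_option backward.defeqAttrib.useBackward true

open CategoryTheory Limits MonoidalCategory
open Pool.Agent.Y112.SR Pool.Agent.Y112.KD Pool.Agent.Y112.SC

namespace Pool.Agent.W2helper37.SG

universe v u w

section Cat

variable {C : Type u} [Category.{v} C] [Preadditive C] [MonoidalCategory C] [SymmetricCategory C]
  [RightRigidCategory C]

/-- The object `X₁ ⊗ (X₂ ⊗ (... ⊗ N))`, where `X_i` is `M` for `true` and the dual of `M` for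
`false`. -/
def mix (M N : C) : List Bool → C
  | [] => N
  | true :: l => M ⊗ mix M N l
  | false :: l => Mᘁ ⊗ mix M N l

/-- The action of `gl(M)` on a tensor product. -/
def omT {M X Y : C} (a : M ⊗ X ⟶ M ⊗ X) (b : M ⊗ Y ⟶ M ⊗ Y) : M ⊗ (X ⊗ Y) ⟶ M ⊗ (X ⊗ Y) :=
  (α_ M X Y).inv ≫ a ▷ Y ≫ (α_ M X Y).hom +
    (α_ M X Y).inv ≫ (β_ M X).hom ▷ Y ≫ (α_ X M Y).hom ≫ X ◁ b ≫ (α_ X M Y).inv ≫
      (β_ X M).hom ▷ Y ≫ (α_ M X Y).hom

/-- The action of `gl(M)` on the dual of `M`. -/
def omD (M : C) : M ⊗ Mᘁ ⟶ M ⊗ Mᘁ := -((β_ M Mᘁ).hom ≫ ε_ M Mᘁ ≫ η_ M Mᘁ)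

/-- The action of `gl(M)` on `X₁ ⊗ (X₂ ⊗ (... ⊗ N))` (trivial on `N`). -/
def om (M N : C) : ∀ l : List Bool, M ⊗ mix M N l ⟶ M ⊗ mix M N l
  | [] => 0
  | true :: l => omT (β_ M M).hom (om M N l)
  | false :: l => omT (omD M) (om M N l)

end Cat

section

variable {C : Type u} [Category.{v} C] [Preadditive C] [Linear ℚ C] [MonoidalCategory C]
  [SymmetricCategory C] [RightRigidCategory C]

/-- the endomorphisms of the unit object are rational numbers -/
def UnitQ (C : Type u) [Category.{v} C] [Preadditive C] [Linear ℚ C] [MonoidalCategory C] : Prop :=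
  ∀ z : 𝟙_ C ⟶ 𝟙_ C, ∃ t : ℚ, z = t • 𝟙 _

/-- The symmetry of the first two factors. -/
def swp (X Y Z : C) : X ⊗ (Y ⊗ Z) ⟶ Y ⊗ (X ⊗ Z) :=
  (α_ X Y Z).inv ≫ (β_ X Y).hom ▷ Z ≫ (α_ Y X Z).hom

/-- The coevaluation of `M` in front of `Y`. -/
def coev (M Y : C) : Y ⟶ M ⊗ (Mᘁ ⊗ Y) := (λ_ Y).inv ≫ η_ M Mᘁ ▷ Y ≫ (α_ M Mᘁ Y).hom

/-- The evaluation of `M` in front of `Y`. -/
def evl (M Y : C) : Mᘁ ⊗ (M ⊗ Y) ⟶ Y := (α_ Mᘁ M Y).inv ≫ ε_ M Mᘁ ▷ Y ≫ (λ_ Y).hom

/-- The morphisms of the (walled) Brauer category of `M`, with rational coefficients: generated by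
the symmetries, the evaluation and the coevaluation of `M`. -/
inductive Brauer (M N : C) : (l l' : List Bool) → (mix M N l ⟶ mix M N l') → Prop
  | one (l : List Bool) : Brauer M N l l (𝟙 _)
  | comp {l l' l'' : List Bool} {f : mix M N l ⟶ mix M N l'} {g : mix M N l' ⟶ mix M N l''} :
      Brauer M N l l' f → Brauer M N l' l'' g → Brauer M N l l'' (f ≫ g)
  | add {l l' : List Bool} {f g : mix M N l ⟶ mix M N l'} :
      Brauer M N l l' f → Brauer M N l l' g → Brauer M N l l' (f + g)
  | smul {l l' : List Bool} (t : ℚ) {f : mix M N l ⟶ mix M N l'} :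
      Brauer M N l l' f → Brauer M N l l' (t • f)
  | whiskerT {l l' : List Bool} {f : mix M N l ⟶ mix M N l'} :
      Brauer M N l l' f → Brauer M N (true :: l) (true :: l') (M ◁ f)
  | whiskerF {l l' : List Bool} {f : mix M N l ⟶ mix M N l'} :
      Brauer M N l l' f → Brauer M N (false :: l) (false :: l') (Mᘁ ◁ f)
  | swapTT (l : List Bool) : Brauer M N (true :: true :: l) (true :: true :: l) (swp M M (mix M N l))
  | swapTF (l : List Bool) :
      Brauer M N (true :: false :: l) (false :: true :: l) (swp M Mᘁ (mix M N l))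
  | swapFT (l : List Bool) :
      Brauer M N (false :: true :: l) (true :: false :: l) (swp Mᘁ M (mix M N l))
  | swapFF (l : List Bool) :
      Brauer M N (false :: false :: l) (false :: false :: l) (swp Mᘁ Mᘁ (mix M N l))
  | coev (l : List Bool) : Brauer M N l (true :: false :: l) (coev M (mix M N l))
  | evl (l : List Bool) : Brauer M N (false :: true :: l) l (evl M (mix M N l))

end

section

variable {C : Type u} [Category.{v} C] [Preadditive C] [Linear ℚ C]
  [MonoidalCategory C] [MonoidalPreadditive C] [MonoidalLinear ℚ C] [SymmetricCategory C]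
  [RightRigidCategory C] {K : Type w} [Field K] (R : SuperRealisation C K)

/-- the odd part of the action of `gl(M)` on the summand is zero -/
def OddTrivial (M N : C) (l : List Bool) {P : C} (i : P ⟶ mix M N l) (r : mix M N l ⟶ P) : Prop :=
  R.H.map (M ◁ i ≫ om M N l ≫ M ◁ r) ≫ bx R (R.par M) (𝟙 _) =
    bx R (R.par M) (𝟙 _) ≫ R.H.map (M ◁ i ≫ om M N l ≫ M ◁ r)

end

end Pool.Agent.W2helper37.SG
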