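import Pool.Agent.W2helper37.SG.Defs

/-!
# The definitions of the statement about orthosymplectic tensor constructions

`M` is an object with a symmetric form `b : M ⊗ M ⟶ L` with values in a line `L` of even parity (for
example `M = h(X)`, `L = h²ᵈ(X)`, `b` the cup product).  The Lie algebra object `osp(M)` acts on the
objects `M ⊗ (M ⊗ (... ⊗ N))`; on `M` itself the split Casimir element acts by `β - κ`, where
`κ = b ≫ c : M ⊗ M ⟶ L ⟶ M ⊗ M`.
-/

set_option autoImplicit false
set_option linter.unusedSectionVars false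
set_option linter.unusedSimpArgs false
set_option backward.isDefEq.respectTransparency false
set_option backward.defeqAttrib.useBackward true

open CategoryTheory Limits MonoidalCategory
open Pool.Agent.Y112.SR Pool.Agent.Y112.KD Pool.Agent.Y112.SC

namespace Pool.Agent.W2helper37.SG

universe v u w

section Cat

variable {C : Type u} [Category.{v} C] [Preadditive C] [MonoidalCategory C] [SymmetricCategory C]
  [RightRigidCategory C]

/-- `M ⊗ (M ⊗ (... ⊗ N))` with `n` factors `M` -/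
def pw (M N : C) : ℕ → C
  | 0 => N
  | n + 1 => M ⊗ pw M N n

/-- the action of `osp(M)` on `M ⊗ (M ⊗ (... ⊗ N))` -/
def omO (M N : C) (κ : M ⊗ M ⟶ M ⊗ M) : ∀ n : ℕ, M ⊗ pw M N n ⟶ M ⊗ pw M N n
  | 0 => 0
  | n + 1 => omT ((β_ M M).hom - κ) (omO M N κ n)

variable {K : Type w} [Field K] (R : SuperRealisation C K)

/-- A symmetric form on `M` with values in an even line `L`; `c` is the dual form. -/
structure Form (M L : C) (b : M ⊗ M ⟶ L) (c : L ⟶ M ⊗ M) : Prop where
  line : Module.finrank K (R.H.obj L) = 1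
  even : R.par L = 𝟙 _
  symm : (β_ M M).hom ≫ b = b
  zig : M ◁ c ≫ (α_ M M M).inv ≫ b ▷ M = (β_ M L).hom

end Cat

section

variable {C : Type u} [Category.{v} C] [Preadditive C] [Linear ℚ C] [MonoidalCategory C]
  [SymmetricCategory C] [RightRigidCategory C]

/-- `κ` on the first two factors. -/
def kap {M : C} (κ : M ⊗ M ⟶ M ⊗ M) (Z : C) : M ⊗ (M ⊗ Z) ⟶ M ⊗ (M ⊗ Z) :=
  (α_ M M Z).inv ≫ κ ▷ Z ≫ (α_ M M Z).hom

/-- The elements of the Brauer algebra of `M` (rational coefficients), acting on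
`M ⊗ (M ⊗ (... ⊗ N))`: generated by the symmetries and by `κ` on two neighbouring factors. -/
inductive BrauerO (M N : C) (κ : M ⊗ M ⟶ M ⊗ M) : (n : ℕ) → (pw M N n ⟶ pw M N n) → Prop
  | one (n : ℕ) : BrauerO M N κ n (𝟙 _)
  | comp {n : ℕ} {f g : pw M N n ⟶ pw M N n} :
      BrauerO M N κ n f → BrauerO M N κ n g → BrauerO M N κ n (f ≫ g)
  | add {n : ℕ} {f g : pw M N n ⟶ pw M N n} :
      BrauerO M N κ n f → BrauerO M N κ n g → BrauerO M N κ n (f + g)
  | smul {n : ℕ} (t : ℚ) {f : pw M N n ⟶ pw M N n} :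
      BrauerO M N κ n f → BrauerO M N κ n (t • f)
  | whisker {n : ℕ} {f : pw M N n ⟶ pw M N n} :
      BrauerO M N κ n f → BrauerO M N κ (n + 1) (M ◁ f)
  | swap (n : ℕ) : BrauerO M N κ (n + 2) (swp M M (pw M N n))
  | kap (n : ℕ) : BrauerO M N κ (n + 2) (kap κ (pw M N n))

end

section

variable {C : Type u} [Category.{v} C] [Preadditive C] [Linear ℚ C]
  [MonoidalCategory C] [MonoidalPreadditive C] [MonoidalLinear ℚ C] [SymmetricCategory C]
  [RightRigidCategory C] {K : Type w} [Field K] (R : SuperRealisation C K)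

/-- the odd part of the action of `osp(M)` on the summand is zero -/
def OddTrivialO (M N : C) (κ : M ⊗ M ⟶ M ⊗ M) (n : ℕ) {P : C} (i : P ⟶ pw M N n)
    (r : pw M N n ⟶ P) : Prop :=
  R.H.map (M ◁ i ≫ omO M N κ n ≫ M ◁ r) ≫ bx R (R.par M) (𝟙 _) =
    bx R (R.par M) (𝟙 _) ≫ R.H.map (M ◁ i ≫ omO M N κ n ≫ M ◁ r)

end

end Pool.Agent.W2helper37.SG
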