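import Pool.Agent.W2helper37.SG.Stm

/-!
# Project SG: the morphisms of the walled Brauer category are equivariant

The morphisms between the objects `X₁ ⊗ (X₂ ⊗ (... ⊗ N))` which are generated by the symmetries, the
evaluation and the coevaluation of `M` commute with the action of `gl(M)`.
-/

set_option autoImplicit false
set_option linter.unusedSectionVars false
set_option linter.unusedSimpArgs false
set_option backward.isDefEq.respectTransparency false
set_option backward.defeqAttrib.useBackward true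

open CategoryTheory Limits MonoidalCategory
open Pool.Agent.Y112.SR Pool.Agent.Y112.KD Pool.Agent.Y112.SC

namespace Pool.Agent.W2helper37.SG

universe v u w

section

variable {C : Type u} [Category.{v} C] [Preadditive C] [Linear ℚ C] [MonoidalCategory C]
  [SymmetricCategory C] [RightRigidCategory C]

/-- `M` for `true`, the dual of `M` for `false` -/
def fac (M : C) : Bool → C
  | true => M
  | false => Mᘁ

end

/-- EQV: equivariance in terms of the matrices (`M ◁ f` is `bx 1 (H f)`; matrix entries are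
unique for the converse, which is the second claim). -/
def P_EQV : Prop := ∀ (C : Type u) [Category.{v} C] [Preadditive C] [Linear ℚ C]
  [MonoidalCategory C] [MonoidalPreadditive C] [MonoidalLinear ℚ C] [SymmetricCategory C]
  [RightRigidCategory C] (K : Type w) [Field K]
  (R : SuperRealisation C K) (M X X' : C) (ι : Type) [Fintype ι] [DecidableEq ι] (o : ι → Bool)
  (e : ι → ι → (R.H.obj M ⟶ R.H.obj M)), Units R M o e →
  ∀ (a : M ⊗ X ⟶ M ⊗ X) (a' : M ⊗ X' ⟶ M ⊗ X') A A', Re R e a A → Re R e a' A' →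
  ∀ f : X ⟶ X', R.H.map (M ◁ f ≫ a') = R.H.map (a ≫ M ◁ f) ↔
    ∀ k i, (R.H.map f).hom ∘ₗ A k i = A' k i ∘ₗ (R.H.map f).hom

/-- BSW: the symmetry of two factors.  Conjugation with the super symmetry maps `A₁ ⊗ 1`, `A₁` of
parity `p`, to `par ^ p ⊗ A₁`, and `par ^ p ⊗ A₂` to `A₂ ⊗ 1` (both in the bx-calculus; `R.symm`;
BRX for the analogous computation). -/
def P_BSW : Prop := ∀ (C : Type u) [Category.{v} C] [Preadditive C] [Linear ℚ C]
  [MonoidalCategory C] [MonoidalPreadditive C] [MonoidalLinear ℚ C] [SymmetricCategory C]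
  [RightRigidCategory C] (K : Type w) [Field K]
  (R : SuperRealisation C K) (X Y Z : C) (ι : Type) [Fintype ι] [DecidableEq ι] (o : ι → Bool)
  (A : ι → ι → Module.End K (R.H.obj X)) (B : ι → ι → Module.End K (R.H.obj Y))
  (D : ι → ι → Module.End K (R.H.obj Z)), ParRel o (R.par X).hom A → ParRel o (R.par Y).hom B →
  ∀ k i, (R.H.map (swp X Y Z)).hom ∘ₗ tenA R o A (tenA R o B D) k i =
    tenA R o B (tenA R o A D) k i ∘ₗ (R.H.map (swp X Y Z)).hom

/-- BCO: the coevaluation and the evaluation. -/
def P_BCO : Prop := ∀ (C : Type u) [Category.{v} C] [Preadditive C] [Linear ℚ C]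
  [MonoidalCategory C] [MonoidalPreadditive C] [MonoidalLinear ℚ C] [SymmetricCategory C]
  [RightRigidCategory C] (K : Type w) [Field K]
  (R : SuperRealisation C K) (M Y : C) (ι : Type) [Fintype ι] [DecidableEq ι] (o : ι → Bool)
  (e : ι → ι → (R.H.obj M ⟶ R.H.obj M)), Units R M o e →
  ∀ A', Good R o e Mᘁ (omD M) A' → ∀ D : ι → ι → Module.End K (R.H.obj Y),
  (∀ k i, (R.H.map (coev M Y)).hom ∘ₗ D k i =
    tenA R o (fun k i => cc K (o i) (o k) • (e k i).hom) (tenA R o A' D) k i ∘ₗ
      (R.H.map (coev M Y)).hom) ∧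
  ∀ k i, (R.H.map (evl M Y)).hom ∘ₗ
    tenA R o A' (tenA R o (fun k i => cc K (o i) (o k) • (e k i).hom) D) k i =
      D k i ∘ₗ (R.H.map (evl M Y)).hom

/-- BRA: all morphisms of the Brauer category are equivariant (induction; the matrices of the
actions on `mix` are built with `tenA` from those of SEL and DUL; TEN). -/
def P_BRA : Prop := P_UNI.{v, u, w} → P_SEL.{v, u, w} → P_DUL.{v, u, w} → P_BRX.{v, u, w} →
  P_TEN.{v, u, w} → P_TER.{v, u, w} → P_EQV.{v, u, w} → P_BSW.{v, u, w} → P_BCO.{v, u, w} →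
  ∀ (C : Type u) [Category.{v} C] [Preadditive C] [Linear ℚ C]
  [MonoidalCategory C] [MonoidalPreadditive C] [MonoidalLinear ℚ C] [SymmetricCategory C]
  [RightRigidCategory C] (K : Type w) [Field K]
  (R : SuperRealisation C K) (M N : C) (l l' : List Bool) (f : mix M N l ⟶ mix M N l'),
  Brauer M N l l' f → R.H.map (M ◁ f ≫ om M N l') = R.H.map (om M N l ≫ M ◁ f)

end Pool.Agent.W2helper37.SG
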