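import Pool.Agent.W2helper37.SG.Main
import Pool.Agent.W2helper37.SG.Stm2
import Pool.Agent.W2helper12.SG.Net
import Pool.Agent.W2helper15.SG.Dua
import Pool.Agent.W2helper17.SG.Sc
import Pool.Agent.W2helper20.SG.Dul
import Pool.Agent.W2helper47.SG.SUM
import Pool.Agent.W2helper49.SG.Tew
import Pool.Agent.W2helper51.SG.Uni
import Pool.Agent.W2helper51.SG.Wtl
import Pool.Agent.W2helper53.SG.Bco
import Pool.Agent.W2helper53.SG.Bsw
import Pool.Agent.W2helper56.SG.Eqn
import Pool.Agent.W2helper59.SG.Sel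
import Pool.Agent.W2helper59.SG.Ten
import Pool.Agent.W2helper71.SG.Brx
import Pool.Agent.W2helper82.SG.Tra
import Pool.Agent.W2helper85.SG.Eqv
import Pool.Agent.W2helper88.SG.Ter
import Pool.Agent.W2helper92.SG.La
import Pool.Agent.W2helper93.SG.Rat
import Pool.Agent.W2helper98.SG.Nil
import Pool.Agent.W4helper65.SG.Bra

/-!
# Project SG: all pieces together
-/

set_option autoImplicit false
set_option backward.isDefEq.respectTransparency false
set_option backward.defeqAttrib.useBackward true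

open CategoryTheory Limits MonoidalCategory
open Pool.Agent.Y112.SR Pool.Agent.Y112.KD Pool.Agent.Y112.SC

namespace Pool.Agent.W2helper37.SG

universe u v w

theorem pieces : Pieces.{u, v, w} where
  LA := Pool.Agent.W2helper92.SG.p_la Pool.Agent.W2helper98.SG.p_nil
  SC := Pool.Agent.W2helper17.SG.p_sc
  WTL := Pool.Agent.W2helper51.SG.p_wtl
  UNI := Pool.Agent.W2helper51.SG.p_uni
  RAT := Pool.Agent.W2helper93.SG.p_rat
  DUA := Pool.Agent.W2helper15.SG.p_dua
  BRX := Pool.Agent.W2helper71.SG.p_brx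
  SEL := Pool.Agent.W2helper59.SG.p_sel
  DUL := Pool.Agent.W2helper20.SG.p_dul
  TEN := Pool.Agent.W2helper59.SG.p_ten Pool.Agent.W2helper71.SG.p_brx
  TER := Pool.Agent.W2helper88.SG.p_ter
  TEW := Pool.Agent.W2helper49.SG.p_tew
  SUM := Pool.Agent.W2helper47.SG.p_SUM
  NET := Pool.Agent.W2helper12.SG.p_net
  TRA := Pool.Agent.W2helper82.SG.p_tra
  EQN := Pool.Agent.W2helper56.SG.p_eqn

theorem bra : P_EQV.{v, u, w} ∧ P_BSW.{v, u, w} ∧ P_BCO.{v, u, w} ∧ P_BRA.{v, u, w} :=
  ⟨Pool.Agent.W2helper85.SG.p_eqv, Pool.Agent.W2helper53.SG.p_bsw,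
    Pool.Agent.W2helper53.SG.p_bco, Pool.Agent.W4helper65.SG.p_bra⟩

/-- the morphisms of the walled Brauer category are equivariant -/
theorem brauer_equivariant {C : Type u} [Category.{v} C] [Preadditive C] [Linear ℚ C]
    [MonoidalCategory C] [MonoidalPreadditive C] [MonoidalLinear ℚ C] [SymmetricCategory C]
    [RightRigidCategory C] {K : Type w} [Field K]
    (R : SuperRealisation C K) (M N : C) (l l' : List Bool) (f : mix M N l ⟶ mix M N l')
    (hf : Brauer M N l l' f) : R.H.map (M ◁ f ≫ om M N l') = R.H.map (om M N l ≫ M ◁ f) := by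
  have hp := pieces.{u, v, w}
  obtain ⟨h1, h2, h3, h4⟩ := bra.{u, v, w}
  exact h4 hp.UNI hp.SEL hp.DUL hp.BRX hp.TEN hp.TER h1 h2 h3 C K R M N l l' f hf

end Pool.Agent.W2helper37.SG
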