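import Pool.Agent.W2helper37.SG.Stm3

/-!
# Project SG, part 2: the Brauer algebra commutes with the action of `osp(M)`
-/

set_option autoImplicit false
set_option linter.unusedSectionVars false
set_option linter.unusedSimpArgs false
set_option backward.isDefEq.respectTransparency false
set_option backward.defeqAttrib.useBackward true

open CategoryTheory Limits MonoidalCategory
open Pool.Agent.Y112.SR Pool.Agent.Y112.KD Pool.Agent.Y112.SC

namespace Pool.Agent.W2helper37.SG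

universe v u w

section

variable {C : Type u} [Category.{v} C] [Preadditive C] [Linear ℚ C] [MonoidalCategory C]
  [SymmetricCategory C] [RightRigidCategory C]

end

/-- BKA: `κ` on the first two factors commutes with the action of `osp(M)`.
Proof.  Write `A' k i = cc (o i) (o k) e k i - γ_i γ_{σ k}⁻¹ e (σ i) (σ k)` and
`κ = ∑_{a,b} γ_a γ_{σ b}⁻¹ e a b ⊗ e (σ a) (σ b)`, `s = par` if `o k ≠ o i` and `s = 1` otherwise.  The matrix
of the action is `A' k i ⊗ 1 ⊗ 1 + s ⊗ A' k i ⊗ 1 + s ⊗ s ⊗ D k i`; `s ⊗ s` commutes with `κ` (all terms of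
`κ` are even: `o (σ a) = o a`), and `κ (A' k i ⊗ 1 + s ⊗ A' k i) = 0 = (A' k i ⊗ 1 + s ⊗ A' k i) κ`
(invariance of the form and of the dual form; matrix units, `FormIdx`). -/
def P_BKA : Prop := ∀ (C : Type u) [Category.{v} C] [Preadditive C] [Linear ℚ C]
  [MonoidalCategory C] [MonoidalPreadditive C] [MonoidalLinear ℚ C] [SymmetricCategory C]
  [RightRigidCategory C] (K : Type w) [Field K]
  (R : SuperRealisation C K) (M Z : C) (ι : Type) [Fintype ι] [DecidableEq ι] (o : ι → Bool)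
  (σ : ι → ι) (γ : ι → K) (N : ι → ℤ) (e : ι → ι → (R.H.obj M ⟶ R.H.obj M)), FormIdx o σ γ N →
  Units R M o e → ∀ κ : M ⊗ M ⟶ M ⊗ M,
  Re R e κ (fun k i => (γ i * (γ (σ k))⁻¹) • (e (σ i) (σ k)).hom) →
  ∀ (A' : ι → ι → Module.End K (R.H.obj M)),
  (∀ k i, A' k i = cc K (o i) (o k) • (e k i).hom - (γ i * (γ (σ k))⁻¹) • (e (σ i) (σ k)).hom) →
  ∀ (D : ι → ι → Module.End K (R.H.obj Z)) (k i : ι),
  (R.H.map (kap κ Z)).hom ∘ₗ tenA R o A' (tenA R o A' D) k i =
    tenA R o A' (tenA R o A' D) k i ∘ₗ (R.H.map (kap κ Z)).hom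

/-- BRO: induction over `BrauerO` (compare `Pool.Agent.W4helper65.SG.Bra`; the closed theorems
p_eqv, p_bsw, p_ten, p_sel, p_brx may be imported; `Re R e ((β_ M M).hom - κ) A'` and the parity of `A'`
are in `Pool.Agent.W2helper37.SG.MainO`, in `good_omO` and `parRel_tau`). -/
def P_BRO : Prop := P_BKA.{v, u, w} → ∀ (C : Type u) [Category.{v} C] [Preadditive C] [Linear ℚ C]
  [MonoidalCategory C] [MonoidalPreadditive C] [MonoidalLinear ℚ C] [SymmetricCategory C]
  [RightRigidCategory C] (K : Type w) [Field K]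
  (R : SuperRealisation C K) (M N : C) (ι : Type) [Fintype ι] [DecidableEq ι] (o : ι → Bool)
  (σ : ι → ι) (γ : ι → K) (N' : ι → ℤ) (e : ι → ι → (R.H.obj M ⟶ R.H.obj M)), FormIdx o σ γ N' →
  Units R M o e → ∀ κ : M ⊗ M ⟶ M ⊗ M,
  Re R e κ (fun k i => (γ i * (γ (σ k))⁻¹) • (e (σ i) (σ k)).hom) →
  ∀ (n : ℕ) (f : pw M N n ⟶ pw M N n), BrauerO M N κ n f →
  R.H.map (M ◁ f ≫ omO M N κ n) = R.H.map (omO M N κ n ≫ M ◁ f)

end Pool.Agent.W2helper37.SG
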