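import Pool.Agent.W2helper37.SG.MainO
import Pool.Agent.W2helper37.SG.Stm4
import Pool.Agent.W2helper2.SG.FB
import Pool.Agent.W2helper6.SG.Fmb
import Pool.Agent.W2helper6.SG.Taf
import Pool.Agent.W2helper11.SG.Sco
import Pool.Agent.W2helper12.SG.Bka
import Pool.Agent.W2helper24.SG.Osr
import Pool.Agent.W2helper46.SG.Nto
import Pool.Agent.W2helper46.SG.Tro
import Pool.Agent.W2helper49.SG.Suq
import Pool.Agent.W2helper49.SG.Sur
import Pool.Agent.W2helper49.SG.Wto
import Pool.Agent.W2helper71.SG.Two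
import Pool.Agent.W2helper78.SG.Ocm
import Pool.Agent.W2helper82.SG.Bro
import Pool.Agent.W2helper88.SG.Lao
import Pool.Agent.W2helper88.SG.Tta
import Pool.Agent.W2helper91.SG.Alt
import Pool.Agent.W2helper98.SG.Oxx

/-!
# Project SG, part 2: all pieces together
-/

set_option autoImplicit false
set_option backward.isDefEq.respectTransparency false
set_option backward.defeqAttrib.useBackward true

open CategoryTheory Limits MonoidalCategory
open Pool.Agent.Y112.SR Pool.Agent.Y112.KD Pool.Agent.Y112.SC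

namespace Pool.Agent.W2helper37.SG

universe u v w

theorem piecesO : PiecesO.{u, v, w} where
  OSR := Pool.Agent.W2helper24.SG.p_osr
  OXX := Pool.Agent.W2helper98.SG.p_oxx
  OCM := Pool.Agent.W2helper78.SG.p_ocm
  SCO := Pool.Agent.W2helper11.SG.p_sco
  LAO := Pool.Agent.W2helper88.SG.p_lao
  WTO := Pool.Agent.W2helper49.SG.p_wto
  SUQ := Pool.Agent.W2helper49.SG.p_suq
  SYM := Pool.Agent.W2helper2.SG.p_SYM
  ALT := Pool.Agent.W2helper91.SG.p_alt
  FB := Pool.Agent.W2helper2.SG.p_FB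
  FMB := Pool.Agent.W2helper6.SG.p_fmb
  TAF := Pool.Agent.W2helper6.SG.p_taf
  NTO := Pool.Agent.W2helper46.SG.p_nto
  TRO := Pool.Agent.W2helper46.SG.p_tro
  SUR := Pool.Agent.W2helper49.SG.p_sur
  TTA := Pool.Agent.W2helper88.SG.p_tta
  TWO := Pool.Agent.W2helper71.SG.p_two

/-- the elements of the Brauer algebra are equivariant -/
theorem brauerO_equivariant {C : Type u} [Category.{v} C] [Preadditive C] [Linear ℚ C]
    [MonoidalCategory C] [MonoidalPreadditive C] [MonoidalLinear ℚ C] [SymmetricCategory C]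
    [RightRigidCategory C] {K : Type w} [Field K]
    (R : SuperRealisation C K) {M L N : C} {b : M ⊗ M ⟶ L} {c : L ⟶ M ⊗ M}
    (hb : Form R M L b c) {n : ℕ} (f : pw M N n ⟶ pw M N n) (hf : BrauerO M N (b ≫ c) n f) :
    R.H.map (M ◁ f ≫ omO M N (b ≫ c) n) = R.H.map (omO M N (b ≫ c) n ≫ M ◁ f) := by
  have hq := piecesO.{u, v, w}
  obtain ⟨ι, hι, hdec, o, σ, γ, N', e, hF, hu, hκ⟩ :=
    hq.FMB hq.SYM hq.ALT hq.FB C K R M L b c hb
  exact Pool.Agent.W2helper82.SG.p_bro Pool.Agent.W2helper12.SG.p_bka C K R M N ι o σ γ N' e hF hu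
    (b ≫ c) hκ n f hf

end Pool.Agent.W2helper37.SG
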