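import Pool.Agent.W2helper37.SG.Stm

/-!
# Project SG: assembly
-/

set_option autoImplicit false
set_option linter.unusedSectionVars false
set_option linter.unusedSimpArgs false
set_option backward.isDefEq.respectTransparency false
set_option backward.defeqAttrib.useBackward true

open CategoryTheory Limits MonoidalCategory
open Pool.Agent.Y112.SR Pool.Agent.Y112.KD Pool.Agent.Y112.SC

namespace Pool.Agent.W2helper37.SG

universe u v w

/-- all pieces -/
structure Pieces.{u', v', w'} : Prop where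
  LA : P_LA.{w'}
  SC : P_SC.{w'}
  WTL : P_WTL.{w'}
  UNI : P_UNI.{v', u', w'}
  RAT : P_RAT.{v', u', w'}
  DUA : P_DUA.{v', u', w'}
  BRX : P_BRX.{v', u', w'}
  SEL : P_SEL.{v', u', w'}
  DUL : P_DUL.{v', u', w'}
  TEN : P_TEN.{v', u', w'}
  TER : P_TER.{v', u', w'}
  TEW : P_TEW.{v', u', w'}
  SUM : P_SUM.{v', u', w'}
  NET : P_NET.{v', u', w'}
  TRA : P_TRA.{v', u', w'}
  EQN : P_EQN.{v', u', w'}

section

variable {C : Type u} [Category.{v} C] [Preadditive C] [Linear ℚ C]
  [MonoidalCategory C] [MonoidalPreadditive C] [MonoidalLinear ℚ C] [SymmetricCategory C]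
  [RightRigidCategory C] {K : Type w} [Field K] (R : SuperRealisation C K)
  {ι : Type} [Fintype ι] [DecidableEq ι]

lemma sg_sq (b : Bool) : sg K b * sg K b = 1 := by
  cases b <;> simp [sg]

lemma Units.par_left {M : C} {o : ι → Bool} {e : ι → ι → (R.H.obj M ⟶ R.H.obj M)}
    (hu : Units R M o e) (i k : ι) : R.par M ≫ e i k = sg K (o i) • e i k := by
  rw [hu.par, Preadditive.sum_comp]
  rw [Finset.sum_eq_single i]
  · rw [Linear.smul_comp, hu.mul, if_pos rfl]
  · intro j _ hj
    rw [Linear.smul_comp, hu.mul, if_neg hj, smul_zero]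
  · intro h
    exact absurd (Finset.mem_univ i) h

lemma Units.par_right {M : C} {o : ι → Bool} {e : ι → ι → (R.H.obj M ⟶ R.H.obj M)}
    (hu : Units R M o e) (i k : ι) : e i k ≫ R.par M = sg K (o k) • e i k := by
  rw [hu.par, Preadditive.comp_sum]
  rw [Finset.sum_eq_single k]
  · rw [Linear.comp_smul, hu.mul, if_pos rfl]
  · intro j _ hj
    rw [Linear.comp_smul, hu.mul, if_neg (Ne.symm hj), smul_zero]
  · intro h
    exact absurd (Finset.mem_univ k) h

/-- a diagonal operator whose entries depend on the parity only -/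
lemma Units.diag {M : C} {o : ι → Bool} {e : ι → ι → (R.H.obj M ⟶ R.H.obj M)}
    (hu : Units R M o e) (hK : CharZero K) (c : Bool → K) : ∑ k, c (o k) • e k k =
      ((c false + c true) / 2) • 𝟙 _ + ((c false - c true) / 2) • R.par M := by
  rw [← hu.sum, hu.par, Finset.smul_sum, Finset.smul_sum, ← Finset.sum_add_distrib]
  refine Finset.sum_congr rfl fun k _ => ?_
  rw [smul_smul, ← add_smul]
  congr 1
  cases o k
  · simp only [sg]
    norm_num
    ring
  · simp only [sg]
    norm_num
    ring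

lemma Units.cplus_of_num {M : C} {o : ι → Bool} {e : ι → ι → (R.H.obj M ⟶ R.H.obj M)}
    (hu : Units R M o e) (b : Bool) (hb : num o b = 0) : R.CPlus M := by
  have h1 : ∀ k, o k = !b := by
    intro k
    have h2 : k ∉ Finset.univ.filter fun i => o i = b := by
      rw [num, Finset.card_eq_zero] at hb
      rw [hb]
      exact Finset.notMem_empty k
    rw [Finset.mem_filter] at h2
    have h3 : o k ≠ b := fun h => h2 ⟨Finset.mem_univ k, h⟩
    revert h3
    cases o k <;> cases b <;> simp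
  have h2 : R.par M = sg K (!b) • 𝟙 _ := by
    rw [hu.par, ← hu.sum, Finset.smul_sum]
    exact Finset.sum_congr rfl fun k _ => by rw [h1 k]
  rw [cplus_iff]
  cases b
  · refine ⟨-𝟙 _, ?_⟩
    rw [Functor.map_neg, CategoryTheory.Functor.map_id, h2]
    simp [sg]
  · refine ⟨𝟙 _, ?_⟩
    rw [CategoryTheory.Functor.map_id, h2]
    simp [sg]

lemma bx_sum_left {Q X : C} {κ : Type} (s : Finset κ) (a : κ → (R.H.obj Q ⟶ R.H.obj Q))
    (b : R.H.obj X ⟶ R.H.obj X) : bx R (∑ j ∈ s, a j) b = ∑ j ∈ s, bx R (a j) b := by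
  classical
  induction s using Finset.induction_on with
  | empty => rw [Finset.sum_empty, Finset.sum_empty, bx_zero_left]
  | insert j s hj ih => rw [Finset.sum_insert hj, Finset.sum_insert hj, bx_add_left, ih]

/-- the matrices of the actions -/
theorem good_om (hp : Pieces.{u, v, w}) {M : C} {o : ι → Bool}
    {e : ι → ι → (R.H.obj M ⟶ R.H.obj M)} (hu : Units R M o e) (N : C) (l : List Bool) :
    ∃ A, Good R o e (mix M N l) (om M N l) A ∧ (R.par N = 𝟙 _ → Wt R o (mix M N l) A) := by
  induction l with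
  | nil =>
    refine ⟨fun _ _ => 0, ⟨?_, ?_, ?_⟩, ?_⟩
    · change R.H.map (0 : M ⊗ N ⟶ M ⊗ N) = _
      rw [Functor.map_zero]
      symm
      refine Finset.sum_eq_zero fun i _ => Finset.sum_eq_zero fun k _ => ?_
      have h1 : (ModuleCat.ofHom (0 : Module.End K (R.H.obj N)) :
        R.H.obj N ⟶ R.H.obj N) = 0 := rfl
      exact (congrArg (bx R (e i k)) h1).trans (bx_zero_right R _)
    · intro k i l j
      simp
    · intro k i
      simp
    · intro hN
      have hf := R.finite N
      refine ⟨⟨Fin (Module.finrank K (R.H.obj N)), inferInstance,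
        Module.finBasis K (R.H.obj N), fun _ => 0, ?_, ?_⟩, 0, ?_⟩
      · intro x
        simp
      · intro x
        change (R.par N).hom _ = _
        rw [hN]
        simp
      · simp
  | cons b l ih =>
    obtain ⟨B, hB, hBw⟩ := ih
    cases b with
    | true =>
      obtain ⟨hA, hAw⟩ := hp.SEL C K R M ι o e hu
      refine ⟨tenA R o (fun k i => cc K (o i) (o k) • (e k i).hom) B, ⟨?_, ?_, ?_⟩, ?_⟩
      · exact hp.TEN hp.BRX C K R M M (mix M N l) ι o e hu _ _ _ _ hA.re hB.re
      · exact (hp.TER C K R M (mix M N l) ι o _ _ hA.rel hA.par hB.rel hB.par).1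
      · exact (hp.TER C K R M (mix M N l) ι o _ _ hA.rel hA.par hB.rel hB.par).2
      · intro hN
        exact hp.TEW C K R M (mix M N l) ι o _ _ hAw (hBw hN)
    | false =>
      obtain ⟨e', -, hA, hAw⟩ := hp.DUL C K R M ι o e hu
      refine ⟨tenA R o (fun k i => -(sg K (o i)) • (e' i k).hom) B, ⟨?_, ?_, ?_⟩, ?_⟩
      · exact hp.TEN hp.BRX C K R M Mᘁ (mix M N l) ι o e hu _ _ _ _ hA.re hB.re
      · exact (hp.TER C K R Mᘁ (mix M N l) ι o _ _ hA.rel hA.par hB.rel hB.par).1
      · exact (hp.TER C K R Mᘁ (mix M N l) ι o _ _ hA.rel hA.par hB.rel hB.par).2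
      · intro hN
        exact hp.TEW C K R Mᘁ (mix M N l) ι o _ _ hAw (hBw hN)

/-- different dimensions -/
theorem core_ne (hp : Pieces.{u, v, w}) (hU : UnitQ C) {M : C} {o : ι → Bool}
    {e : ι → ι → (R.H.obj M ⟶ R.H.obj M)} (hu : Units R M o e)
    (hn : num o false ≠ num o true) {X : C} {a : M ⊗ X ⟶ M ⊗ X}
    {A : ι → ι → Module.End K (R.H.obj X)} (hA : Good R o e X a A) (hX : R.CPlus X)
    (hM : ¬ R.CPlus M) : ∀ k i, o k ≠ o i → A k i = 0 := by
  have hK := R_charZero R
  have hfin := R.finite X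
  obtain ⟨g, hg⟩ := (cplus_iff R X).1 hX
  obtain ⟨ν, z, hν, hz⟩ := hp.NET hp.BRX C K R M X ι o e hu a A hA g hg
  have h0 : num o false ≠ 0 := fun h => hM (Units.cplus_of_num R hu false h)
  have h1 : num o true ≠ 0 := fun h => hM (Units.cplus_of_num R hu true h)
  refine hp.LA K ι o (R.H.obj X) A hA.rel hn fun n => ?_
  obtain ⟨f, f', hf, hf'⟩ := hp.TRA hp.SC C K R M X ι o e hu a A hA g hg ν z hν hz n
  have key : ∀ (f : M ⟶ M) (c : Bool → K), R.H.map f = ∑ k, c (o k) • e k k →
      c false = c true := by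
    intro f c hf
    rw [Units.diag R hu hK c] at hf
    by_contra hne
    refine hM (hp.RAT C K R M hU f _ _ hf ?_)
    rw [div_ne_zero_iff]
    exact ⟨sub_ne_zero.2 hne, two_ne_zero⟩
  have k1 := key f (fun b => LinearMap.trace K _ (ZZ o A ^ n * XX o A b) / num o b) hf
  have k2 := key f' (fun b => LinearMap.trace K _ (ZZ o A ^ n * XX o A (!b)) / num o b) hf'
  simp only [Bool.not_false, Bool.not_true] at k1 k2
  set x := LinearMap.trace K _ (ZZ o A ^ n * XX o A false)
  set y := LinearMap.trace K _ (ZZ o A ^ n * XX o A true)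
  have p0 : (num o false : K) ≠ 0 := by exact_mod_cast h0
  have q0 : (num o true : K) ≠ 0 := by exact_mod_cast h1
  rw [div_eq_div_iff p0 q0] at k1 k2
  have hpq : ((num o false : K)) ^ 2 - (num o true : K) ^ 2 ≠ 0 := by
    rw [sq_sub_sq, mul_ne_zero_iff]
    constructor
    · have h2 : (num o false + num o true : ℕ) ≠ 0 := by omega
      exact_mod_cast h2
    · rw [sub_ne_zero]
      exact_mod_cast hn
  constructor
  · have h2 : ((num o false : K) ^ 2 - (num o true : K) ^ 2) * x = 0 := by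
      linear_combination (-(num o true : K)) * k1 - (num o false : K) * k2
    exact (mul_eq_zero.1 h2).resolve_left hpq
  · have h2 : ((num o false : K) ^ 2 - (num o true : K) ^ 2) * y = 0 := by
      linear_combination (-(num o false : K)) * k1 - (num o true : K) * k2
    exact (mul_eq_zero.1 h2).resolve_left hpq

lemma Units.entry {M : C} {o : ι → Bool} {e : ι → ι → (R.H.obj M ⟶ R.H.obj M)}
    (hu : Units R M o e) {X : C} {a : M ⊗ X ⟶ M ⊗ X} {A : ι → ι → Module.End K (R.H.obj X)}
    (hA : Re R e a A) (h : ∀ k i, o k ≠ o i → A k i = 0) :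
    R.H.map a ≫ bx R (R.par M) (𝟙 _) = bx R (R.par M) (𝟙 _) ≫ R.H.map a := by
  rw [hA, Preadditive.sum_comp, Preadditive.comp_sum]
  refine Finset.sum_congr rfl fun i _ => ?_
  rw [Preadditive.sum_comp, Preadditive.comp_sum]
  refine Finset.sum_congr rfl fun k _ => ?_
  rw [bx_comp, bx_comp, Category.comp_id, Category.id_comp, Units.par_right R hu,
    Units.par_left R hu]
  by_cases hki : o k = o i
  · rw [hki]
  · have h1 : (ModuleCat.ofHom (A k i) : R.H.obj X ⟶ R.H.obj X) = 0 := by
      rw [h k i hki]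
      rfl
    rw [bx_smul_left, bx_smul_left]
    have h2 : bx R (e i k) (ModuleCat.ofHom (A k i) : R.H.obj X ⟶ R.H.obj X) = 0 :=
      (congrArg (bx R (e i k)) h1).trans (bx_zero_right R _)
    exact (congrArg (fun t => sg K (o k) • t) h2).trans
      ((smul_zero _).trans ((congrArg (fun t => sg K (o i) • t) h2).trans (smul_zero _)).symm)

lemma cc_sq (b c : Bool) : cc K b c * cc K b c = 1 := by
  cases b <;> cases c <;> simp [cc]

lemma trace_summand {T P : C} (i : P ⟶ T) (r : T ⟶ P) (hir : i ≫ r = 𝟙 P) :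
    LinearMap.trace K (R.H.obj T) (R.H.map (r ≫ i)).hom = (Module.finrank K (R.H.obj P) : K) := by
  have hf1 := R.finite P
  have hf2 := R.finite T
  rw [Functor.map_comp, ModuleCat.hom_comp]
  have h4 := LinearMap.trace_comp_comm' (R := K) (R.H.map r).hom (R.H.map i).hom
  refine h4.trans ?_
  rw [← ModuleCat.hom_comp, ← Functor.map_comp, hir, CategoryTheory.Functor.map_id,
    ModuleCat.hom_id, LinearMap.trace_id]

/-- equal dimensions -/
theorem core_eq_aux (hp : Pieces.{u, v, w}) (hU : UnitQ C) {X Y : C} {o : ι → Bool}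
    {e : ι → ι → (R.H.obj X ⟶ R.H.obj X)} (hu : Units R X o e)
    (hn : num o false = num o true) (hX : ¬ R.CPlus X)
    {A : ι → ι → Module.End K (R.H.obj X)} {B : ι → ι → Module.End K (R.H.obj Y)}
    (hA : ∀ k i, o k = o i → ∃ (k' i' : ι) (c : K), o k' = o i' ∧ (e k i).hom = c • A k' i')
    (hB : ParRel o (R.par Y).hom B) (hT : ParRel o (R.par (X ⊗ Y)).hom (tenA R o A B)) {P : C}
    (i : P ⟶ X ⊗ Y) (r : X ⊗ Y ⟶ P) (hir : i ≫ r = 𝟙 P) (hP : R.CPlus P)
    (hc : ∀ k l, Commute (R.H.map (r ≫ i)).hom (tenA R o A B k l)) :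
    Module.finrank K (R.H.obj P) = 0 := by
  have hK := R_charZero R
  obtain ⟨g, hg⟩ := (cplus_iff R P).1 hP
  have h1 : R.H.map (r ≫ g ≫ i) = R.H.map (r ≫ i) ≫ R.par (X ⊗ Y) := by
    rw [Functor.map_comp, Functor.map_comp, hg, Functor.map_comp, Category.assoc,
      R.par_natural]
  have h2 := hp.EQN hp.RAT C K R X Y ι o e hu hU hn hX A B hA hB (r ≫ g ≫ i) (by
    intro k l hkl
    rw [h1, ModuleCat.hom_comp]
    have h3 : Commute (R.par (X ⊗ Y)).hom (tenA R o A B k l) := by
      have h4 := hT k l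
      rw [hkl, sg_sq, one_smul] at h4
      exact h4
    exact h3.mul_left (hc k l))
  rw [h1, Category.assoc, R.par_sq, Category.comp_id, trace_summand R i r hir] at h2
  exact_mod_cast h2

theorem core_eq (hp : Pieces.{u, v, w}) (hU : UnitQ C) {M : C} {o : ι → Bool}
    {e : ι → ι → (R.H.obj M ⟶ R.H.obj M)} (hu : Units R M o e)
    (hn : num o false = num o true) (hM : ¬ R.CPlus M) {N P : C} {b : Bool} {l : List Bool}
    {i : P ⟶ mix M N (b :: l)} {r : mix M N (b :: l) ⟶ P} (h : Summand R M N (b :: l) P i r)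
    (hP : R.CPlus P) : Module.finrank K (R.H.obj P) = 0 := by
  obtain ⟨B, hB, -⟩ := good_om R hp hu N l
  cases b with
  | true =>
    obtain ⟨hA, -⟩ := hp.SEL C K R M ι o e hu
    have hT : Good R o e (mix M N (true :: l)) (om M N (true :: l))
        (tenA R o (fun k i => cc K (o i) (o k) • (e k i).hom) B) :=
      ⟨hp.TEN hp.BRX C K R M M (mix M N l) ι o e hu _ _ _ _ hA.re hB.re,
        (hp.TER C K R M (mix M N l) ι o _ _ hA.rel hA.par hB.rel hB.par).1,
        (hp.TER C K R M (mix M N l) ι o _ _ hA.rel hA.par hB.rel hB.par).2⟩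
    have hc := (hp.SUM C K R M (mix M N (true :: l)) P ι o e hu _ _ hT i r h.ir h.comm).1
    refine core_eq_aux R hp hU hu hn hM (fun k i _ => ?_) hB.par hT.par i r h.ir hP hc
    rename_i hki
    exact ⟨k, i, cc K (o i) (o k), hki, by rw [smul_smul, cc_sq, one_smul]⟩
  | false =>
    obtain ⟨e', hu', hA, -⟩ := hp.DUL C K R M ι o e hu
    have hT : Good R o e (mix M N (false :: l)) (om M N (false :: l))
        (tenA R o (fun k i => -(sg K (o i)) • (e' i k).hom) B) :=
      ⟨hp.TEN hp.BRX C K R M Mᘁ (mix M N l) ι o e hu _ _ _ _ hA.re hB.re,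
        (hp.TER C K R Mᘁ (mix M N l) ι o _ _ hA.rel hA.par hB.rel hB.par).1,
        (hp.TER C K R Mᘁ (mix M N l) ι o _ _ hA.rel hA.par hB.rel hB.par).2⟩
    have hc := (hp.SUM C K R M (mix M N (false :: l)) P ι o e hu _ _ hT i r h.ir h.comm).1
    have hM' : ¬ R.CPlus Mᘁ := fun h' => hM ((hp.DUA C K R M).1.1 h')
    refine core_eq_aux R hp hU hu' hn hM' (fun k i hki => ?_) hB.par hT.par i r h.ir hP hc
    exact ⟨i, k, -(sg K (o k)), hki.symm, by rw [smul_smul, neg_mul_neg, sg_sq, one_smul]⟩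

lemma par_of_finrank {P : C} (h : Module.finrank K (R.H.obj P) = 0) (f g : R.H.obj P ⟶ R.H.obj P) :
    f = g := by
  have hf := R.finite P
  have h1 : Subsingleton (R.H.obj P) := Module.finrank_zero_iff.1 h
  apply ModuleCat.hom_ext
  apply LinearMap.ext
  intro x
  exact Subsingleton.elim _ _

theorem par_summand_one {P Q : C} (i : P ⟶ Q) (r : Q ⟶ P) (ir : i ≫ r = 𝟙 P)
    (hQ : R.par Q = 𝟙 _) : R.par P = 𝟙 _ := by
  have h1 : R.par P = R.H.map i ≫ R.par Q ≫ R.H.map r := by
    have h2 : R.H.map i ≫ R.par Q = R.par P ≫ R.H.map i := R.par_natural i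
    rw [← Category.assoc, h2, Category.assoc, ← Functor.map_comp, ir,
      CategoryTheory.Functor.map_id, Category.comp_id]
  rw [h1, hQ, Category.id_comp, ← Functor.map_comp, ir, CategoryTheory.Functor.map_id]

/-- **The sign conjecture for tensor constructions.** -/
theorem main (hp : Pieces.{u, v, w}) (hU : UnitQ C) {M N P : C} {l : List Bool}
    {i : P ⟶ mix M N l} {r : mix M N l ⟶ P} (h : Summand R M N l P i r) :
    (R.CPlus P → R.CPlus M ∨ OddTrivial R M N l i r) ∧
    (R.par N = 𝟙 _ → R.par P = 𝟙 _ ∨ R.par P = -𝟙 _ ∨ (R.CPlus P ↔ R.CPlus M)) := by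
  have hK := R_charZero R
  obtain ⟨ι, hι, hdec, o, e, hu⟩ := hp.UNI C K R M
  obtain ⟨A, hA, hAw⟩ := good_om R hp hu N l
  obtain ⟨hc, hAP⟩ := hp.SUM C K R M (mix M N l) P ι o e hu _ _ hA i r h.ir h.comm
  by_cases hM : R.CPlus M
  · refine ⟨fun _ => Or.inl hM, fun hN => Or.inr (Or.inr ⟨fun _ => hM, fun _ => ?_⟩)⟩
    have hN' : R.CPlus N := by
      rw [cplus_iff]
      exact ⟨𝟙 _, by rw [CategoryTheory.Functor.map_id, hN]⟩
    exact cplus_retract R i r h.ir ((hp.DUA C K R M).2 N hN' hM l)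
  by_cases hP : R.CPlus P
  swap
  · exact ⟨fun h' => absurd h' hP, fun _ =>
      Or.inr (Or.inr ⟨fun h' => absurd h' hP, fun h' => absurd h' hM⟩)⟩
  by_cases hn : num o false = num o true
  · cases l with
    | nil =>
      refine ⟨fun _ => Or.inr ?_, fun hN => Or.inl ?_⟩
      · unfold OddTrivial
        have h1 : M ◁ i ≫ om M N [] ≫ M ◁ r = 0 := by
          change M ◁ i ≫ (0 : M ⊗ N ⟶ M ⊗ N) ≫ M ◁ r = 0
          rw [zero_comp, comp_zero]
        rw [h1, Functor.map_zero, zero_comp, comp_zero]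
      · exact par_summand_one R (Q := N) i r h.ir hN
    | cons b l =>
      have h1 := core_eq R hp hU hu hn hM h hP
      refine ⟨fun _ => Or.inr ?_, fun _ => Or.inl (par_of_finrank R h1 _ _)⟩
      refine Units.entry R hu hAP.re fun k i' _ => ?_
      have h2 := par_of_finrank R h1 (ModuleCat.ofHom
        ((R.H.map r).hom ∘ₗ A k i' ∘ₗ (R.H.map i).hom)) 0
      have h3 := congrArg ModuleCat.Hom.hom h2
      exact h3
  · have hodd := core_ne R hp hU hu hn hAP hP hM
    refine ⟨fun _ => Or.inr (Units.entry R hu hAP.re hodd), fun hN => ?_⟩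
    obtain ⟨⟨κ, hκ, ub, n, hw, hs⟩, m, hm⟩ := hAw hN
    have h1 := hp.WTL K ι o (R.H.obj (mix M N l)) (R.H.obj P) A (R.par (mix M N l)).hom
      (R.H.map i).hom (R.H.map r).hom κ ub n m hA.rel hn (by
        rw [← ModuleCat.hom_comp, ← Functor.map_comp, h.ir, CategoryTheory.Functor.map_id]
        rfl) (by
        intro k j
        have h2 := hc k j
        rw [Functor.map_comp, ModuleCat.hom_comp] at h2
        exact h2) hw hs hm hodd
    have h3 : ∀ x, (R.H.map r).hom ((R.par (mix M N l)).hom ((R.H.map i).hom x)) =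
        (R.par P).hom x := by
      intro x
      have h4 : R.H.map i ≫ R.par (mix M N l) ≫ R.H.map r = R.par P := by
        have h2 : R.H.map i ≫ R.par (mix M N l) = R.par P ≫ R.H.map i := R.par_natural i
        rw [← Category.assoc, h2, Category.assoc, ← Functor.map_comp, h.ir,
          CategoryTheory.Functor.map_id, Category.comp_id]
      rw [← h4]
      rfl
    rcases h1 with h1 | h1
    · left
      apply ModuleCat.hom_ext
      apply LinearMap.ext
      intro x
      rw [← h3, h1]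
      rfl
    · right
      left
      apply ModuleCat.hom_ext
      apply LinearMap.ext
      intro x
      rw [← h3, h1]
      rfl

end

end Pool.Agent.W2helper37.SG
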