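import Pool.Agent.W2helper37.SG.Stm2
import Pool.Agent.W2helper37.SG.DefsO

/-!
# Project SG, part 2: orthosymplectic tensor constructions

`M` is an object with a symmetric form `b : M ⊗ M ⟶ L` with values in a line `L` of even parity (for
example `M = h(X)`, `L = h²ᵈ(X)`, `b` the cup product).  The Lie algebra object `osp(M)` acts on the
objects `M ⊗ (M ⊗ (... ⊗ N))`; on `M` itself the split Casimir element acts by `β - κ`, where
`κ = b ≫ c : M ⊗ M ⟶ L ⟶ M ⊗ M`.

All formulas below have been checked by computer for `osp(2|2)`, `osp(1|2)`, `osp(1|4)` on `V`, `V ⊗ V`.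
-/

set_option autoImplicit false
set_option linter.unusedSectionVars false
set_option linter.unusedSimpArgs false
set_option backward.isDefEq.respectTransparency false
set_option backward.defeqAttrib.useBackward true

open CategoryTheory Limits MonoidalCategory
open Pool.Agent.Y112.SR Pool.Agent.Y112.KD Pool.Agent.Y112.SC

namespace Pool.Agent.W2helper37.SG

universe v u w

section Lin

variable {K : Type w} [Field K] {ι : Type} [Fintype ι] [DecidableEq ι]

/-- The indices of a basis `v_i` of `H(M)` with `⟨v_i, v_j⟩ = γ i` if `j = σ i` and `0` otherwise; on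
the even part `N = 0`, on the odd part `N = ± 1` (a symplectic basis). -/
structure FormIdx (o : ι → Bool) (σ : ι → ι) (γ : ι → K) (N : ι → ℤ) : Prop where
  inv : ∀ i, σ (σ i) = i
  par : ∀ i, o (σ i) = o i
  ne : ∀ i, γ i ≠ 0
  sym : ∀ i, γ (σ i) = sg K (o i) * γ i
  even : ∀ i, o i = false → N i = 0
  odd : ∀ i, o i = true → N i = 1 ∨ N i = -1
  neg : ∀ i, N (σ i) = -N i

/-- the transpose of the matrix of an action of `gl(M)`, with respect to the form -/
def tauA (o : ι → Bool) (σ : ι → ι) (γ : ι → K) {Q : Type w} [AddCommGroup Q] [Module K Q]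
    (A : ι → ι → Module.End K Q) (k i : ι) : Module.End K Q :=
  (cc K (o i) (o k) * γ i * (γ (σ k))⁻¹) • A (σ i) (σ k)

/-- the relations of the matrix of an action of `osp(M)` -/
structure OspRel (o : ι → Bool) (σ : ι → ι) (γ : ι → K) {Q : Type w} [AddCommGroup Q] [Module K Q]
    (A : ι → ι → Module.End K Q) : Prop where
  anti : ∀ k i, tauA o σ γ A k i = -A k i
  rel : ∀ k i l j, (cc K (o i) (o l) * cc K (o k) (o l)) • (A k i * A l j) -
    (cc K (o i) (o j) * cc K (o k) (o j)) • (A l j * A k i) =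
      (if k = j then cc K (o i) (o j) • A l i else 0) -
      (if l = i then cc K (o k) (o i) • A k j else 0) -
      (if k = σ l then (cc K (o i) (o j) * γ j * (γ l)⁻¹) • A (σ j) i else 0) +
      (if i = σ j then (cc K (o k) (o l) * sg K (o j) * sg K (o l) * γ j * (γ l)⁻¹) • A k (σ l)
        else 0)

end Lin

/-- the weights of the element of the torus of `sp` which belongs to `N` are integers, and they give
the parity -/
def WtO {C : Type u} [Category.{v} C] [Preadditive C] [MonoidalCategory C]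
    [SymmetricCategory C] {K : Type w} [Field K] (R : SuperRealisation C K)
    {ι : Type} [Fintype ι] (N : ι → ℤ) (X : C) (A : ι → ι → Module.End K (R.H.obj X)) : Prop :=
  ∃ (κ : Type) (_ : Fintype κ) (u : Module.Basis κ K (R.H.obj X)) (m : κ → ℤ),
    (∀ x, (∑ j, (N j : K) • A j j) (u x) = (m x : K) • u x) ∧
    ∀ x, (R.par X).hom (u x) = ((-1 : K) ^ (m x)) • u x

/-! ### Pieces: linear algebra -/

/-- OSR: the relations of `osp` follow from those of `gl`.
Proof.  `τ` is an involution (`inv`, `par`, `sym`): that is `anti`.  `rel`: expand the four products;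
use `GlRel` for `(k,i,l,j)`, `(σ i,σ k,l,j)`, `(k,i,σ j,σ l)`, `(σ i,σ k,σ j,σ l)`; cases on the four
parities (after `par`) give the signs. -/
def P_OSR : Prop := ∀ (K : Type w) [Field K] (ι : Type) [Fintype ι] [DecidableEq ι]
  (o : ι → Bool) (σ : ι → ι) (γ : ι → K) (N : ι → ℤ), FormIdx o σ γ N →
  ∀ (Q : Type w) [AddCommGroup Q] [Module K Q] (A : ι → ι → Module.End K Q), GlRel o A →
  OspRel o σ γ (fun k i => A k i - tauA o σ γ A k i)

/-- OXX: `A a b A b a + A b a A a b = A a a - A b b` (`a` even, `b` odd; `rel` for `(a,b,b,a)`), and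
`∑ A a a = 0 = ∑ A b b` as `A (σ i) (σ i) = - A i i` (`anti`; reindex by `σ`). -/
def P_OXX : Prop := ∀ (K : Type w) [Field K] [CharZero K] (ι : Type) [Fintype ι] [DecidableEq ι]
  (o : ι → Bool) (σ : ι → ι) (γ : ι → K) (N : ι → ℤ), FormIdx o σ γ N →
  ∀ (Q : Type w) [AddCommGroup Q] [Module K Q] (A : ι → ι → Module.End K Q), OspRel o σ γ A →
  XX o A false + XX o A true = 0

/-- OCM: `ZZ` commutes with the even part.
Proof.  For `c, c', k` of one parity and `i` of the other one, `rel` and `anti` give (`s = sg (o c)`)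
`[A c c', A k i] = - s δ(k,c') A c i + δ(c, σ k) γ_c' γ_k⁻¹ A (σ c') i` and
`[A c c', A i k] = s δ(c,k) A i c' - δ(c', σ k) γ_k γ_c⁻¹ A i (σ c)`.
Sum over `k`: the commutators of `A c c'` with `∑_k A k i A i k` and with `∑_k A i k A k i` are zero. -/
def P_OCM : Prop := ∀ (K : Type w) [Field K] [CharZero K] (ι : Type) [Fintype ι] [DecidableEq ι]
  (o : ι → Bool) (σ : ι → ι) (γ : ι → K) (N : ι → ℤ), FormIdx o σ γ N →
  ∀ (Q : Type w) [AddCommGroup Q] [Module K Q] (A : ι → ι → Module.End K Q), OspRel o σ γ A →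
  ∀ c c', o c = o c' → Commute (ZZ o A) (A c c')

/-- SCO: invariance.  `y` commutes with the even part; for `k`, `i` of the same parity put
`F k i = ∑_{j : o j ≠ o k} tr (y A k j A j i)`.  The claim is
`F k i + γ_i γ_k⁻¹ F (σ i) (σ k) = 2 δ(k,i) tr (y XX o A (o k)) / num o (o k)`.
Proof.  Take the trace of `y [A c c', ∑_j A l j A j i] = 0` (`c, c', l, i` of one parity, `s` its sign);
with the formulas of OCM: `0 = - s δ(l,c') F c i + γ_c' γ_l⁻¹ δ(c,σ l) F (σ c') i + s δ(c,i) F l c'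
- γ_i γ_c⁻¹ δ(c',σ i) F l (σ c)`.  Put `c' = l` and sum over `l`:
`num F c i = δ(c,i) ∑_l F l l + s (F c i - γ_i γ_c⁻¹ F (σ i) (σ c))`.  Add the same formula for
`(σ i, σ c)` times `γ_i γ_c⁻¹`: the last terms cancel. -/
def P_SCO : Prop := ∀ (K : Type w) [Field K] [CharZero K] (ι : Type) [Fintype ι] [DecidableEq ι]
  (o : ι → Bool) (σ : ι → ι) (γ : ι → K) (N : ι → ℤ), FormIdx o σ γ N →
  ∀ (Q : Type w) [AddCommGroup Q] [Module K Q] [Module.Finite K Q] (A : ι → ι → Module.End K Q),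
  OspRel o σ γ A →
  ∀ y : Module.End K Q, (∀ c c', o c = o c' → Commute y (A c c')) → ∀ k i, o k = o i →
    (∑ j with o j ≠ o k, LinearMap.trace K Q (y * (A k j * A j i))) +
      (γ i * (γ k)⁻¹) * (∑ j with o j ≠ o k, LinearMap.trace K Q (y * (A (σ i) j * A j (σ k)))) =
      if k = i then 2 * LinearMap.trace K Q (y * XX o A (o k)) / num o (o k) else 0

/-- LAO: if the traces of `Z ^ n X'` vanish (`X' = XX o A false`) then the odd part acts by zero.
Proof.  `Z = X' - X = 2 X'` (OXX), so `Z` is nilpotent (NIL: `Pool.Agent.W2helper98.SG.p_nil`).  Put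
`h = ∑_{N b = 1} A b b`; `rel` and `anti` give `[h, A l j] = (N l - N j) A l j`.
`Y⁺ = ∑_{a even, N b = 1} A a b A b a`, `Y⁻ = ∑_{a even, N b = -1} A a b A b a`, `X' = Y⁺ + Y⁻`.  By `anti`
`A a b A b a = - A (σ b) (σ a) A (σ a) (σ b)`, so `Y⁺ = - ∑_{a, N b = -1} A b a A a b`,
`Y⁻ = - ∑_{a, N b = 1} A b a A a b`, and `Y⁻ - Y⁺ = ∑_{a, N b = -1} (A a b A b a + A b a A a b) =
∑ (A a a - A b b) = p h` (`p` the number of even indices, `∑ A a a = 0`, `∑_{N b = -1} A b b = - h`).
`A b a h = (h - 1) A b a` for `N b = 1` gives `tr (h ^ j Y⁺) = tr ((h - 1) ^ j ∑ A b a A a b) =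
- tr ((h - 1) ^ j Y⁻)`.  `Y⁺ = (X' - p h) / 2`, `Y⁻ = (X' + p h) / 2`, `h` commutes with the nilpotent `X'`
(OCM), so `tr (h ^ j h) = tr ((h - 1) ^ j h)` for all `j`; by induction on `j` all `tr (h ^ (j + 1)) = 0`
(as in `Pool.Agent.W2helper92.SG.La`), `h` is nilpotent, and `A b a = 0`, `A a b = 0` because they are
eigenvectors of `ad h` for `± 1`. -/
def P_LAO : Prop := P_OXX.{w} → P_OCM.{w} → ∀ (K : Type w) [Field K] [CharZero K] (ι : Type)
  [Fintype ι] [DecidableEq ι]
  (o : ι → Bool) (σ : ι → ι) (γ : ι → K) (N : ι → ℤ), FormIdx o σ γ N → (∃ a, o a = false) →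
  ∀ (Q : Type w) [AddCommGroup Q] [Module K Q] [Module.Finite K Q] (A : ι → ι → Module.End K Q),
  OspRel o σ γ A → (∀ n : ℕ, LinearMap.trace K Q (ZZ o A ^ n * XX o A false) = 0) →
  ∀ k i, o k ≠ o i → A k i = 0

/-- WTO: if the odd part acts by zero on a stable summand then it is purely even.
Proof.  On the summand `P`: `A a a = A b b` (`a` even, `b` odd, from `rel` for `(a,b,b,a)` and
`Commute`), for all `b`, and `A (σ b) (σ b) = - A b b`, so `A b b = A a a = A (σ b) (σ b) = - A b b` and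
`A b b = 0` on `P`.  So `∑ N j A j j` is zero on the image of `i`; in the basis `u` the vectors of the
image only involve the `u x` with `m x = 0`, where `s = 1`. -/
def P_WTO : Prop := ∀ (K : Type w) [Field K] [CharZero K] (ι : Type) [Fintype ι] [DecidableEq ι]
  (o : ι → Bool) (σ : ι → ι) (γ : ι → K) (N : ι → ℤ), FormIdx o σ γ N → (∃ a, o a = false) →
  ∀ (T P : Type w) [AddCommGroup T] [Module K T] [AddCommGroup P] [Module K P]
  (A : ι → ι → Module.End K T) (s : Module.End K T) (i : P →ₗ[K] T) (r : T →ₗ[K] P)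
  (κ : Type) [Fintype κ] (u : Module.Basis κ K T) (m : κ → ℤ),
  OspRel o σ γ A → r ∘ₗ i = LinearMap.id →
  (∀ k l, Commute (i ∘ₗ r : Module.End K T) (A k l)) →
  (∀ x, (∑ j, (N j : K) • A j j) (u x) = (2 * (m x : K)) • u x) →
  (∀ x, s (u x) = ((-1 : K) ^ (m x)) • u x) →
  (∀ k l, o k ≠ o l → r ∘ₗ A k l ∘ₗ i = 0) →
  ∀ x, r (s (i x)) = x

/-- SUQ: `OspRel` and `ParRel` for a stable summand (`(r A i) (r B i) = r A B i`). -/
def P_SUQ : Prop := ∀ (K : Type w) [Field K] (ι : Type) [Fintype ι] [DecidableEq ι]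
  (o : ι → Bool) (σ : ι → ι) (γ : ι → K)
  (T P : Type w) [AddCommGroup T] [Module K T] [AddCommGroup P] [Module K P]
  (A : ι → ι → Module.End K T) (i : P →ₗ[K] T) (r : T →ₗ[K] P),
  OspRel o σ γ A → r ∘ₗ i = LinearMap.id →
  (∀ k l, Commute (i ∘ₗ r : Module.End K T) (A k l)) →
  OspRel o σ γ (fun k l => r ∘ₗ A k l ∘ₗ i)

/-- SYM: a symmetric non-degenerate form has an orthogonal basis (Mathlib:
`LinearMap.BilinForm.exists_orthogonal_basis`). -/
def P_SYM : Prop := ∀ (K : Type w) [Field K] [CharZero K] (V : Type w) [AddCommGroup V] [Module K V]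
  [Module.Finite K V] (B : V →ₗ[K] V →ₗ[K] K), (∀ x y, B x y = B y x) →
  (∀ x, (∀ y, B x y = 0) → x = 0) →
  ∃ (ι : Type) (_ : Fintype ι) (_ : DecidableEq ι) (v : Module.Basis ι K V) (γ : ι → K),
    (∀ i, γ i ≠ 0) ∧ ∀ i j, B (v i) (v j) = if j = i then γ i else 0

/-- ALT: an alternating non-degenerate form has a symplectic basis.
Proof.  Induction on the dimension: if `V ≠ 0` take `x ≠ 0` and `y` with `B x y = 1`; `V` is the direct
sum of `span {x, y}` and of its orthogonal `W = {z | B x z = 0 = B y z}` (`z - B z y x + B z x y ∈ W`),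
and `B` is non-degenerate on `W`. -/
def P_ALT : Prop := ∀ (K : Type w) [Field K] [CharZero K] (V : Type w) [AddCommGroup V] [Module K V]
  [Module.Finite K V] (B : V →ₗ[K] V →ₗ[K] K), (∀ x y, B x y = -B y x) →
  (∀ x, (∀ y, B x y = 0) → x = 0) →
  ∃ (n : ℕ) (v : Module.Basis (Fin n × Bool) K V),
    ∀ i j, B (v i) (v j) = if j = (i.1, !i.2) then (if i.2 then 1 else -1) else 0

/-- FB: an adapted basis.
Proof.  `V` is the direct sum of the eigenspaces `V₀`, `V₁` of `s`; they are orthogonal, SYM on `V₀` and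
ALT on `V₁`; `ι = ι₀ ⊕ (Fin n × Bool)`. -/
def P_FB : Prop := P_SYM.{w} → P_ALT.{w} → ∀ (K : Type w) [Field K] [CharZero K] (V : Type w)
  [AddCommGroup V] [Module K V] [Module.Finite K V] (s : Module.End K V) (B : V →ₗ[K] V →ₗ[K] K),
  s * s = 1 → (∀ x y, B (s x) (s y) = B x y) → (∀ x y, B x y = B y (s x)) →
  (∀ x, (∀ y, B x y = 0) → x = 0) →
  ∃ (ι : Type) (_ : Fintype ι) (_ : DecidableEq ι) (v : Module.Basis ι K V) (o : ι → Bool)
    (σ : ι → ι) (γ : ι → K) (N : ι → ℤ), FormIdx o σ γ N ∧ (∀ i, s (v i) = sg K (o i) • v i) ∧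
    ∀ i j, B (v i) (v j) = if j = σ i then γ i else 0

/-! ### Pieces: the category -/

/-- FMB: the bilinear form on `H(M)` of a `Form`, and the realisation of `κ = b ≫ c`.
`B x y` is the coordinate of `H(b) (μ (x ⊗ y))` in `H(L)` for a basis vector `ℓ` of `H(L)`, and
`H(c) ℓ = μ (∑ v_k ⊗ v^k)`, where `zig` gives `∑ B(x, v_k) v^k = x`, so `v^k = γ_{σ k}⁻¹ v_{σ k}`.  `B` is
even as `R.par` is natural and `par L = 1`; `B x y = B y (s x)` is the symmetry of `b` with `R.symm`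
(for `x`, `y` odd a sign; for different parities both sides are zero).  Non-degenerate: `zig`.
Matrix units from a basis: `Pool.Agent.W2helper51.SG.p_uni`, `Pool.Agent.W2helper20.SG.Dul`,
`Pool.Agent.W2helper59.SG.Sel`. -/
def P_FMB : Prop := P_SYM.{w} → P_ALT.{w} → P_FB.{w} → ∀ (C : Type u) [Category.{v} C]
  [Preadditive C] [Linear ℚ C]
  [MonoidalCategory C] [MonoidalPreadditive C] [MonoidalLinear ℚ C] [SymmetricCategory C]
  [RightRigidCategory C] (K : Type w) [Field K]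
  (R : SuperRealisation C K) (M L : C) (b : M ⊗ M ⟶ L) (c : L ⟶ M ⊗ M), Form R M L b c →
  ∃ (ι : Type) (_ : Fintype ι) (_ : DecidableEq ι) (o : ι → Bool) (σ : ι → ι) (γ : ι → K)
    (N : ι → ℤ) (e : ι → ι → (R.H.obj M ⟶ R.H.obj M)), FormIdx o σ γ N ∧ Units R M o e ∧
    Re R e (b ≫ c) (fun k i => (γ i * (γ (σ k))⁻¹) • (e (σ i) (σ k)).hom)

/-- TAF: transposes with respect to the form are algebraic: `f'` is the partial trace over the first
factor `M` of `(f ⊗ 1) ≫ κ` (`bx_map`, `PT_bx`, `PT_map`; only the terms with `o i = o l` occur, so `f` is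
even). -/
def P_TAF : Prop := ∀ (C : Type u) [Category.{v} C] [Preadditive C] [Linear ℚ C]
  [MonoidalCategory C] [MonoidalPreadditive C] [MonoidalLinear ℚ C] [SymmetricCategory C]
  [RightRigidCategory C] (K : Type w) [Field K]
  (R : SuperRealisation C K) (M : C) (ι : Type) [Fintype ι] [DecidableEq ι] (o : ι → Bool)
  (σ : ι → ι) (γ : ι → K) (N : ι → ℤ) (e : ι → ι → (R.H.obj M ⟶ R.H.obj M)), FormIdx o σ γ N →
  Units R M o e → ∀ κ : M ⊗ M ⟶ M ⊗ M,
  Re R e κ (fun k i => (γ i * (γ (σ k))⁻¹) • (e (σ i) (σ k)).hom) →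
  ∀ (f : M ⟶ M) (F : ι → ι → K), R.H.map f = ∑ l, ∑ i with o i = o l, F l i • e i l →
  ∃ f' : M ⟶ M, R.H.map f' =
    ∑ l, ∑ i with o i = o l, (γ i * (γ l)⁻¹ * F (σ i) (σ l)) • e i l

/-- NTO: as NET (`Pool.Agent.W2helper12.SG.Net`), but only `Re` and `ParRel` are known. -/
def P_NTO : Prop := P_BRX.{v, u, w} → ∀ (C : Type u) [Category.{v} C] [Preadditive C] [Linear ℚ C]
  [MonoidalCategory C] [MonoidalPreadditive C] [MonoidalLinear ℚ C] [SymmetricCategory C]
  [RightRigidCategory C] (K : Type w) [Field K]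
  (R : SuperRealisation C K) (M X : C) (ι : Type) [Fintype ι] [DecidableEq ι] (o : ι → Bool)
  (e : ι → ι → (R.H.obj M ⟶ R.H.obj M)), Units R M o e →
  ∀ (a : M ⊗ X ⟶ M ⊗ X) A, Re R e a A → ParRel o (R.par X).hom A →
  ∀ g : X ⟶ X, R.H.map g = R.par X →
  ∃ (ν : M ⊗ X ⟶ M ⊗ X) (z : X ⟶ X),
    Re R e ν (fun k i => if o k ≠ o i then A k i else 0) ∧ (R.H.map z).hom = ZZ o A

/-- TRO: as TRA (`Pool.Agent.W2helper82.SG.Tra`), the partial trace over `X` of
`ν ≫ ν ≫ M ◁ (z ^ n ≫ g)`, without the invariance argument. -/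
def P_TRO : Prop := ∀ (C : Type u) [Category.{v} C] [Preadditive C] [Linear ℚ C]
  [MonoidalCategory C] [MonoidalPreadditive C] [MonoidalLinear ℚ C] [SymmetricCategory C]
  [RightRigidCategory C] (K : Type w) [Field K]
  (R : SuperRealisation C K) (M X : C) (ι : Type) [Fintype ι] [DecidableEq ι] (o : ι → Bool)
  (e : ι → ι → (R.H.obj M ⟶ R.H.obj M)), Units R M o e →
  ∀ A : ι → ι → Module.End K (R.H.obj X), ParRel o (R.par X).hom A →
  ∀ g : X ⟶ X, R.H.map g = R.par X →
  ∀ (ν : M ⊗ X ⟶ M ⊗ X) (z : X ⟶ X),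
    Re R e ν (fun k i => if o k ≠ o i then A k i else 0) → (R.H.map z).hom = ZZ o A →
  ∀ n : ℕ, ∃ f : M ⟶ M, R.H.map f = ∑ l, ∑ i with o i = o l,
    (∑ j with o j ≠ o l, LinearMap.trace K _ (ZZ o A ^ n * (A l j * A j i))) • e i l

/-- SUR: as SUM (`Pool.Agent.W2helper47.SG.SUM`), but only `Re` and `ParRel` are known. -/
def P_SUR : Prop := ∀ (C : Type u) [Category.{v} C] [Preadditive C] [Linear ℚ C]
  [MonoidalCategory C] [MonoidalPreadditive C] [MonoidalLinear ℚ C] [SymmetricCategory C]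
  [RightRigidCategory C] (K : Type w) [Field K]
  (R : SuperRealisation C K) (M T P : C) (ι : Type) [Fintype ι] [DecidableEq ι] (o : ι → Bool)
  (e : ι → ι → (R.H.obj M ⟶ R.H.obj M)), Units R M o e →
  ∀ (a : M ⊗ T ⟶ M ⊗ T) A, Re R e a A → ParRel o (R.par T).hom A →
  ∀ (i : P ⟶ T) (r : T ⟶ P), i ≫ r = 𝟙 P →
  R.H.map (M ◁ (r ≫ i) ≫ a) = R.H.map (a ≫ M ◁ (r ≫ i)) →
  (∀ k l, Commute (R.H.map (r ≫ i)).hom (A k l)) ∧
  Re R e (M ◁ i ≫ a ≫ M ◁ r) (fun k l => (R.H.map r).hom ∘ₗ A k l ∘ₗ (R.H.map i).hom) ∧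
  ParRel o (R.par P).hom (fun k l => (R.H.map r).hom ∘ₗ A k l ∘ₗ (R.H.map i).hom)

/-- TTA: the transpose and tensor products (`tenA` is additive and homogeneous in `(A, B)`, and
`o (σ i) = o (σ k)` if and only if `o k = o i`). -/
def P_TTA : Prop := ∀ (C : Type u) [Category.{v} C] [Preadditive C] [Linear ℚ C]
  [MonoidalCategory C] [MonoidalPreadditive C] [MonoidalLinear ℚ C] [SymmetricCategory C]
  [RightRigidCategory C] (K : Type w) [Field K]
  (R : SuperRealisation C K) (X Y : C) (ι : Type) [Fintype ι] [DecidableEq ι] (o : ι → Bool)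
  (σ : ι → ι) (γ : ι → K) (N : ι → ℤ), FormIdx o σ γ N →
  ∀ (A : ι → ι → Module.End K (R.H.obj X)) (B : ι → ι → Module.End K (R.H.obj Y)) (k i : ι),
  tenA R o (fun k i => A k i - tauA o σ γ A k i) (fun k i => B k i - tauA o σ γ B k i) k i =
    tenA R o A B k i - tauA o σ γ (tenA R o A B) k i

/-- TWO: the weights for `M` and for a tensor product (as SEL and TEW:
`Pool.Agent.W2helper59.SG.Sel`, `Pool.Agent.W2helper49.SG.Tew`). -/
def P_TWO : Prop := ∀ (C : Type u) [Category.{v} C] [Preadditive C] [Linear ℚ C]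
  [MonoidalCategory C] [MonoidalPreadditive C] [MonoidalLinear ℚ C] [SymmetricCategory C]
  [RightRigidCategory C] (K : Type w) [Field K]
  (R : SuperRealisation C K) (M : C) (ι : Type) [Fintype ι] [DecidableEq ι] (o : ι → Bool)
  (σ : ι → ι) (γ : ι → K) (N : ι → ℤ) (e : ι → ι → (R.H.obj M ⟶ R.H.obj M)), FormIdx o σ γ N →
  Units R M o e → WtO R N M (fun k i => cc K (o i) (o k) • (e k i).hom) ∧
  ∀ (X Y : C) (A : ι → ι → Module.End K (R.H.obj X)) (B : ι → ι → Module.End K (R.H.obj Y)),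
  WtO R N X A → WtO R N Y B → WtO R N (X ⊗ Y) (tenA R o A B)

end Pool.Agent.W2helper37.SG
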