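import Pool.Agent.W2helper37.SG.Final
import Pool.Agent.W2helper37.SG.Stm3

/-!
# Project SG, part 2: assembly
-/

set_option autoImplicit false
set_option linter.unusedSectionVars false
set_option linter.unusedSimpArgs false
set_option backward.isDefEq.respectTransparency false
set_option backward.defeqAttrib.useBackward true

open CategoryTheory Limits MonoidalCategory
open Pool.Agent.Y112.SR Pool.Agent.Y112.KD Pool.Agent.Y112.SC

namespace Pool.Agent.W2helper37.SG

universe u v w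

/-- all pieces of part 2 -/
structure PiecesO.{u', v', w'} : Prop where
  OSR : P_OSR.{w'}
  OXX : P_OXX.{w'}
  OCM : P_OCM.{w'}
  SCO : P_SCO.{w'}
  LAO : P_LAO.{w'}
  WTO : P_WTO.{w'}
  SUQ : P_SUQ.{w'}
  SYM : P_SYM.{w'}
  ALT : P_ALT.{w'}
  FB : P_FB.{w'}
  FMB : P_FMB.{v', u', w'}
  TAF : P_TAF.{v', u', w'}
  NTO : P_NTO.{v', u', w'}
  TRO : P_TRO.{v', u', w'}
  SUR : P_SUR.{v', u', w'}
  TTA : P_TTA.{v', u', w'}
  TWO : P_TWO.{v', u', w'}

section

variable {C : Type u} [Category.{v} C] [Preadditive C] [Linear ℚ C]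
  [MonoidalCategory C] [MonoidalPreadditive C] [MonoidalLinear ℚ C] [SymmetricCategory C]
  [RightRigidCategory C] {K : Type w} [Field K] (R : SuperRealisation C K)
  {ι : Type} [Fintype ι] [DecidableEq ι]

lemma cc_comm (b c : Bool) : cc K b c = cc K c b := by
  cases b <;> cases c <;> rfl

lemma parRel_tau {o : ι → Bool} {σ : ι → ι} {γ : ι → K} {N : ι → ℤ} (hF : FormIdx o σ γ N)
    {Q : Type w} [AddCommGroup Q] [Module K Q] {s : Module.End K Q} {A : ι → ι → Module.End K Q}
    (h : ParRel o s A) : ParRel o s (fun k i => A k i - tauA o σ γ A k i) := by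
  intro k i
  have h1 := h k i
  have h2 := h (σ i) (σ k)
  simp only [tauA]
  rw [mul_sub, mul_smul_comm, h1, h2, hF.par, hF.par, sub_mul, smul_sub, smul_mul_assoc,
    smul_comm, mul_comm (sg K (o i))]

lemma sum_tau {o : ι → Bool} {σ : ι → ι} {γ : ι → K} {N : ι → ℤ} (hF : FormIdx o σ γ N)
    {Q : Type w} [AddCommGroup Q] [Module K Q] (A : ι → ι → Module.End K Q) :
    ∑ j, (N j : K) • (A j j - tauA o σ γ A j j) = (2 : K) • ∑ j, (N j : K) • A j j := by
  have h1 : ∀ j, (N j : K) • (A j j - tauA o σ γ A j j) =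
      (N j : K) • A j j - (N j : K) • A (σ j) (σ j) := by
    intro j
    rw [smul_sub]
    congr 1
    cases hj : o j with
    | false => rw [hF.even j hj, Int.cast_zero, zero_smul, zero_smul]
    | true =>
      congr 1
      simp only [tauA]
      have h2 : cc K (o j) (o j) * γ j * (γ (σ j))⁻¹ = 1 := by
        rw [hF.sym, hj]
        have h3 := hF.ne j
        simp only [cc, sg, Bool.and_self, if_true]
        field_simp
      rw [h2, one_smul]
  rw [Finset.sum_congr rfl fun j _ => h1 j, Finset.sum_sub_distrib, two_smul]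
  have hσ : Function.Involutive σ := hF.inv
  have h2 : ∑ j, (N j : K) • A (σ j) (σ j) = ∑ j, (N (σ j) : K) • A j j := by
    refine Fintype.sum_equiv hσ.toPerm _ _ fun j => ?_
    change (N j : K) • A (σ j) (σ j) = (N (σ (σ j)) : K) • A (σ j) (σ j)
    rw [hF.inv]
  rw [h2]
  have h3 : ∑ j, (N (σ j) : K) • A j j = -∑ j, (N j : K) • A j j := by
    rw [← Finset.sum_neg_distrib]
    refine Finset.sum_congr rfl fun j _ => ?_
    rw [hF.neg, Int.cast_neg, neg_smul]
  rw [h3, sub_neg_eq_add]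

/-- the matrices of the actions of `gl(M)` and `osp(M)` -/
theorem good_omO (hp : Pieces.{u, v, w}) (hq : PiecesO.{u, v, w}) {M : C} {o : ι → Bool}
    {σ : ι → ι} {γ : ι → K} {N' : ι → ℤ} (hF : FormIdx o σ γ N')
    {e : ι → ι → (R.H.obj M ⟶ R.H.obj M)} (hu : Units R M o e) {κ : M ⊗ M ⟶ M ⊗ M}
    (hκ : Re R e κ (fun k i => (γ i * (γ (σ k))⁻¹) • (e (σ i) (σ k)).hom)) (N : C) (n : ℕ) :
    ∃ A : ι → ι → Module.End K (R.H.obj (pw M N n)), GlRel o A ∧ ParRel o (R.par (pw M N n)).hom A ∧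
      Re R e (omO M N κ n) (fun k i => A k i - tauA o σ γ A k i) ∧
      (R.par N = 𝟙 _ → WtO R N' (pw M N n) A) := by
  induction n with
  | zero =>
    refine ⟨fun _ _ => 0, ?_, ?_, ?_, ?_⟩
    · intro k i l j
      simp
    · intro k i
      simp
    · change R.H.map (0 : M ⊗ N ⟶ M ⊗ N) = _
      rw [Functor.map_zero]
      symm
      refine Finset.sum_eq_zero fun i _ => Finset.sum_eq_zero fun k _ => ?_
      have h1 : (ModuleCat.ofHom ((0 : Module.End K (R.H.obj N)) -
          tauA o σ γ (fun _ _ => (0 : Module.End K (R.H.obj N))) k i) :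
        R.H.obj N ⟶ R.H.obj N) = 0 := by
        have h2 : (0 : Module.End K (R.H.obj N)) -
          tauA o σ γ (fun _ _ => (0 : Module.End K (R.H.obj N))) k i = 0 := by
          rw [tauA, smul_zero, sub_zero]
        rw [h2]
        rfl
      exact (congrArg (bx R (e i k)) h1).trans (bx_zero_right R _)
    · intro hN
      have hf := R.finite N
      refine ⟨Fin (Module.finrank K (R.H.obj N)), inferInstance,
        Module.finBasis K (R.H.obj N), fun _ => 0, ?_, ?_⟩
      · intro x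
        simp
      · intro x
        change (R.par N).hom _ = _
        rw [hN]
        simp
  | succ n ih =>
    obtain ⟨B, hB1, hB2, hB3, hB4⟩ := ih
    obtain ⟨hA, -⟩ := hp.SEL C K R M ι o e hu
    obtain ⟨hw1, hw2⟩ := hq.TWO C K R M ι o σ γ N' e hF hu
    set A : ι → ι → Module.End K (R.H.obj M) := fun k i => cc K (o i) (o k) • (e k i).hom with hAd
    have hA3 : Re R e ((β_ M M).hom - κ) (fun k i => A k i - tauA o σ γ A k i) := by
      have h1 : R.H.map ((β_ M M).hom - κ) = R.H.map (β_ M M).hom - R.H.map κ := by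
        rw [Functor.map_sub]
      have h2 : R.H.map (β_ M M).hom = ∑ i, ∑ k, bx R (e i k) (ModuleCat.ofHom (A k i)) := hA.re
      have h3 : R.H.map κ = ∑ i, ∑ k, bx R (e i k)
        (ModuleCat.ofHom ((γ i * (γ (σ k))⁻¹) • (e (σ i) (σ k)).hom)) := hκ
      unfold Re
      rw [h1, h2, h3, ← Finset.sum_sub_distrib]
      refine Finset.sum_congr rfl fun i _ => ?_
      rw [← Finset.sum_sub_distrib]
      refine Finset.sum_congr rfl fun k _ => ?_
      have h4 : tauA o σ γ A k i = (γ i * (γ (σ k))⁻¹) • (e (σ i) (σ k)).hom := by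
        simp only [tauA, hAd]
        rw [hF.par, hF.par, smul_smul]
        congr 1
        have h5 := cc_sq (K := K) (o i) (o k)
        rw [cc_comm (o k) (o i)]
        linear_combination (γ i * (γ (σ k))⁻¹) * h5
      beta_reduce
      rw [h4]
      have h6 : (ModuleCat.ofHom (A k i - (γ i * (γ (σ k))⁻¹) • (e (σ i) (σ k)).hom) :
          R.H.obj M ⟶ R.H.obj M) = ModuleCat.ofHom (A k i) +
            -(ModuleCat.ofHom ((γ i * (γ (σ k))⁻¹) • (e (σ i) (σ k)).hom)) := by
        rw [sub_eq_add_neg]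
        rfl
      have h7 : bx R (e i k) (-(ModuleCat.ofHom ((γ i * (γ (σ k))⁻¹) • (e (σ i) (σ k)).hom) :
          R.H.obj M ⟶ R.H.obj M)) = -bx R (e i k)
            (ModuleCat.ofHom ((γ i * (γ (σ k))⁻¹) • (e (σ i) (σ k)).hom)) := by
        rw [eq_neg_iff_add_eq_zero, ← bx_add_right, neg_add_cancel, bx_zero_right]
      rw [h6, bx_add_right, h7, sub_eq_add_neg]
    refine ⟨tenA R o A B, ?_, ?_, ?_, ?_⟩
    · exact (hp.TER C K R M (pw M N n) ι o _ _ hA.rel hA.par hB1 hB2).1
    · exact (hp.TER C K R M (pw M N n) ι o _ _ hA.rel hA.par hB1 hB2).2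
    · have h1 := hp.TEN hp.BRX C K R M M (pw M N n) ι o e hu _ _ _ _ hA3 hB3
      have h2 : tenA R o (fun k i => A k i - tauA o σ γ A k i)
          (fun k i => B k i - tauA o σ γ B k i) =
          fun k i => tenA R o A B k i - tauA o σ γ (tenA R o A B) k i := by
        funext k i
        exact hq.TTA C K R M (pw M N n) ι o σ γ N' hF A B k i
      rw [h2] at h1
      exact h1
    · intro hN
      exact hw2 M (pw M N n) A B hw1 (hB4 hN)

/-- the key theorem for `osp(M)` -/
theorem core_osp (hp : Pieces.{u, v, w}) (hq : PiecesO.{u, v, w}) (hU : UnitQ C) {M : C}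
    {o : ι → Bool} {σ : ι → ι} {γ : ι → K} {N' : ι → ℤ} (hF : FormIdx o σ γ N')
    {e : ι → ι → (R.H.obj M ⟶ R.H.obj M)} (hu : Units R M o e) {κ : M ⊗ M ⟶ M ⊗ M}
    (hκ : Re R e κ (fun k i => (γ i * (γ (σ k))⁻¹) • (e (σ i) (σ k)).hom))
    {X : C} {a : M ⊗ X ⟶ M ⊗ X}
    {A : ι → ι → Module.End K (R.H.obj X)} (hA1 : Re R e a A) (hA2 : ParRel o (R.par X).hom A)
    (hA3 : OspRel o σ γ A) (hX : R.CPlus X) (hM : ¬ R.CPlus M) :
    (∃ a, o a = false) ∧ ∀ k i, o k ≠ o i → A k i = 0 := by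
  have hK := R_charZero R
  have hfin := R.finite X
  obtain ⟨g, hg⟩ := (cplus_iff R X).1 hX
  obtain ⟨ν, z, hν, hz⟩ := hq.NTO hp.BRX C K R M X ι o e hu a A hA1 hA2 g hg
  have h0 : num o false ≠ 0 := fun h => hM (Units.cplus_of_num R hu false h)
  have h1 : num o true ≠ 0 := fun h => hM (Units.cplus_of_num R hu true h)
  have hex : ∃ a, o a = false := by
    have h2 : (Finset.univ.filter fun i => o i = false).Nonempty := by
      rw [← Finset.card_pos]
      exact Nat.pos_of_ne_zero h0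
    obtain ⟨a, ha⟩ := h2
    exact ⟨a, (Finset.mem_filter.1 ha).2⟩
  refine ⟨hex, hq.LAO hq.OXX hq.OCM K ι o σ γ N' hF hex (R.H.obj X) A hA3 fun n => ?_⟩
  obtain ⟨f, hf⟩ := hq.TRO C K R M X ι o e hu A hA2 g hg ν z hν hz n
  obtain ⟨f', hf'⟩ := hq.TAF C K R M ι o σ γ N' e hF hu κ hκ f _ hf
  have hy : ∀ c c', o c = o c' → Commute (ZZ o A ^ n) (A c c') := fun c c' hcc =>
    (hq.OCM K ι o σ γ N' hF (R.H.obj X) A hA3 c c' hcc).pow_left n
  have hs := hq.SCO K ι o σ γ N' hF (R.H.obj X) A hA3 (ZZ o A ^ n) hy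
  have hsum : R.H.map (f + f') = ∑ k, (fun b => 2 * LinearMap.trace K _
      (ZZ o A ^ n * XX o A b) / num o b) (o k) • e k k := by
    rw [Functor.map_add, hf, hf', ← Finset.sum_add_distrib]
    refine Finset.sum_congr rfl fun l _ => ?_
    rw [← Finset.sum_add_distrib, Finset.sum_eq_single_of_mem l (by simp)]
    · rw [← add_smul]
      congr 1
      have h2 := hs l l rfl
      rw [if_pos rfl] at h2
      beta_reduce
      rw [← h2]
      simp only [hF.par]
    · intro i hi hil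
      rw [Finset.mem_filter] at hi
      rw [← add_smul]
      have h2 := hs l i hi.2.symm
      rw [if_neg (Ne.symm hil)] at h2
      have h3 : (∑ j with o j ≠ o l, LinearMap.trace K _ (ZZ o A ^ n * (A l j * A j i))) +
        γ i * (γ l)⁻¹ * (∑ j with o j ≠ o (σ i), LinearMap.trace K _ (ZZ o A ^ n *
          (A (σ i) j * A j (σ l)))) = 0 := by
        rw [← h2]
        simp only [hF.par, hi.2]
      rw [h3, zero_smul]
  have key : ∀ (f : M ⟶ M) (c : Bool → K), R.H.map f = ∑ k, c (o k) • e k k →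
      c false = c true := by
    intro f c hf
    rw [Units.diag R hu hK c] at hf
    by_contra hne
    refine hM (hp.RAT C K R M hU f _ _ hf ?_)
    rw [div_ne_zero_iff]
    exact ⟨sub_ne_zero.2 hne, two_ne_zero⟩
  have k1 := key (f + f') (fun b => 2 * LinearMap.trace K _ (ZZ o A ^ n * XX o A b) / num o b) hsum
  have h2 : XX o A true = -XX o A false :=
    eq_neg_of_add_eq_zero_right (hq.OXX K ι o σ γ N' hF (R.H.obj X) A hA3)
  simp only [h2, mul_neg, map_neg] at k1
  set x := LinearMap.trace K _ (ZZ o A ^ n * XX o A false)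
  have p0 : (num o false : K) ≠ 0 := by exact_mod_cast h0
  have q0 : (num o true : K) ≠ 0 := by exact_mod_cast h1
  rw [div_eq_div_iff p0 q0] at k1
  have h3 : (num o false + num o true : K) ≠ 0 := by
    have h4 : (num o false + num o true : ℕ) ≠ 0 := by omega
    exact_mod_cast h4
  have h4 : (num o false + num o true : K) * (2 * x) = 0 := by
    linear_combination k1
  have h5 := (mul_eq_zero.1 h4).resolve_left h3
  exact (mul_eq_zero.1 h5).resolve_left two_ne_zero

lemma cplus_pw (hp : Pieces.{u, v, w}) {M N : C} (hN : R.CPlus N) (hM : R.CPlus M) (n : ℕ) :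
    R.CPlus (pw M N n) := by
  induction n with
  | zero => exact hN
  | succ n ih => exact (hp.DUA C K R M).2 (pw M N n) ih hM [true]

/-- **The sign conjecture for orthosymplectic tensor constructions.** -/
theorem mainO (hp : Pieces.{u, v, w}) (hq : PiecesO.{u, v, w}) (hU : UnitQ C) {M L N P : C}
    {b : M ⊗ M ⟶ L} {c : L ⟶ M ⊗ M} (hb : Form R M L b c) {n : ℕ}
    {i : P ⟶ pw M N n} {r : pw M N n ⟶ P} (hir : i ≫ r = 𝟙 P)
    (hs : R.H.map (M ◁ (r ≫ i) ≫ omO M N (b ≫ c) n) =
      R.H.map (omO M N (b ≫ c) n ≫ M ◁ (r ≫ i))) :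
    (R.CPlus P → R.CPlus M ∨ OddTrivialO R M N (b ≫ c) n i r) ∧
    (R.par N = 𝟙 _ → R.par P = 𝟙 _ ∨ (R.CPlus P ↔ R.CPlus M)) := by
  have hK := R_charZero R
  obtain ⟨ι, hι, hdec, o, σ, γ, N', e, hF, hu, hκ⟩ :=
    hq.FMB hq.SYM hq.ALT hq.FB C K R M L b c hb
  obtain ⟨A, hA1, hA2, hA3, hA4⟩ := good_omO R hp hq hF hu hκ N n
  have hO := hq.OSR K ι o σ γ N' hF _ A hA1
  obtain ⟨hc, hR1, hR2⟩ := hq.SUR C K R M (pw M N n) P ι o e hu _ _ hA3 (parRel_tau hF hA2)
    i r hir hs
  have hri : (R.H.map r).hom ∘ₗ (R.H.map i).hom = LinearMap.id := by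
    rw [← ModuleCat.hom_comp, ← Functor.map_comp, hir, CategoryTheory.Functor.map_id]
    rfl
  have hc' : ∀ k l, Commute ((R.H.map i).hom ∘ₗ (R.H.map r).hom : Module.End K _)
      (A k l - tauA o σ γ A k l) := by
    intro k l
    have h2 := hc k l
    rw [Functor.map_comp, ModuleCat.hom_comp] at h2
    exact h2
  have hR3 := hq.SUQ K ι o σ γ _ _ _ (R.H.map i).hom (R.H.map r).hom hO hri hc'
  by_cases hM : R.CPlus M
  · refine ⟨fun _ => Or.inl hM, fun hN => Or.inr ⟨fun _ => hM, fun _ => ?_⟩⟩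
    have hN' : R.CPlus N := by
      rw [cplus_iff]
      exact ⟨𝟙 _, by rw [CategoryTheory.Functor.map_id, hN]⟩
    exact cplus_retract R i r hir (cplus_pw R hp hN' hM n)
  by_cases hP : R.CPlus P
  swap
  · exact ⟨fun h' => absurd h' hP, fun _ =>
      Or.inr ⟨fun h' => absurd h' hP, fun h' => absurd h' hM⟩⟩
  obtain ⟨hex, hodd⟩ := core_osp R hp hq hU hF hu hκ hR1 hR2 hR3 hP hM
  refine ⟨fun _ => Or.inr (Units.entry R hu hR1 hodd), fun hN => Or.inl ?_⟩
  obtain ⟨κ', hκ', ub, m, hw, hpar⟩ := hA4 hN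
  have h1 := hq.WTO K ι o σ γ N' hF hex (R.H.obj (pw M N n)) (R.H.obj P)
    (fun k i => A k i - tauA o σ γ A k i) (R.par (pw M N n)).hom
    (R.H.map i).hom (R.H.map r).hom κ' ub m hO hri hc' (by
      intro x
      rw [sum_tau hF, LinearMap.smul_apply, hw, smul_smul]) hpar hodd
  apply ModuleCat.hom_ext
  apply LinearMap.ext
  intro x
  have h4 : R.H.map i ≫ R.par (pw M N n) ≫ R.H.map r = R.par P := by
    have h2 : R.H.map i ≫ R.par (pw M N n) = R.par P ≫ R.H.map i := R.par_natural i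
    rw [← Category.assoc, h2, Category.assoc, ← Functor.map_comp, hir,
      CategoryTheory.Functor.map_id, Category.comp_id]
  rw [← h4]
  exact h1 x

end

end Pool.Agent.W2helper37.SG
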