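import Pool.Agent.W2helper37.SG.Defs

/-!
# Project SG (MP_56c18a_ag): the sign conjecture for tensor constructions.  Definitions, pieces

`C` is a rigid symmetric monoidal category, `R` a realisation in super vector spaces, `M` an object.
The Lie algebra object `gl(M) = M ⊗ M^∨` acts on the objects `X₁ ⊗ (X₂ ⊗ ... ⊗ N)`, `X_i = M` or
`X_i = M^∨`; the action is given by the endomorphism `om` of `M ⊗ (...)` (split Casimir element).
-/

set_option autoImplicit false
set_option linter.unusedSectionVars false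
set_option linter.unusedSimpArgs false
set_option backward.isDefEq.respectTransparency false
set_option backward.defeqAttrib.useBackward true

open CategoryTheory Limits MonoidalCategory
open Pool.Agent.Y112.SR Pool.Agent.Y112.KD Pool.Agent.Y112.SC

namespace Pool.Agent.W2helper37.SG

universe v u w

section Lin

variable {K : Type w} [Field K]

/-- the sign of a parity (`true` is odd) -/
def sg (K : Type w) [Field K] (b : Bool) : K := if b then -1 else 1

/-- the sign `(-1) ^ (b c)` -/
def cc (K : Type w) [Field K] (b c : Bool) : K := if b && c then -1 else 1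

variable {ι : Type} [Fintype ι] [DecidableEq ι]

/-- The relation of the matrix `A` (`A k i` is the entry in row `k` and column `i`) of the split
Casimir element of `gl(p | q)`; `o i` is the parity of the index `i`. -/
def GlRel (o : ι → Bool) {Q : Type w} [AddCommGroup Q] [Module K Q]
    (A : ι → ι → Module.End K Q) : Prop :=
  ∀ k i l j, (cc K (o i) (o l) * cc K (o k) (o l)) • (A k i * A l j) -
    (cc K (o i) (o j) * cc K (o k) (o j)) • (A l j * A k i) =
      (if k = j then cc K (o i) (o j) • A l i else 0) - (if l = i then cc K (o k) (o i) • A k j else 0)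

/-- `A k i` has the parity of `i + k` for the involution `s` -/
def ParRel (o : ι → Bool) {Q : Type w} [AddCommGroup Q] [Module K Q] (s : Module.End K Q)
    (A : ι → ι → Module.End K Q) : Prop :=
  ∀ k i, s * A k i = (sg K (o k) * sg K (o i)) • (A k i * s)

/-- `∑ A k i A i k`, `k` of parity `b`, `i` of the other parity -/
def XX (o : ι → Bool) {Q : Type w} [AddCommGroup Q] [Module K Q]
    (A : ι → ι → Module.End K Q) (b : Bool) : Module.End K Q :=
  ∑ k with o k = b, ∑ i with o i ≠ b, A k i * A i k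

/-- the odd part of the Casimir element -/
def ZZ (o : ι → Bool) {Q : Type w} [AddCommGroup Q] [Module K Q]
    (A : ι → ι → Module.End K Q) : Module.End K Q := XX o A false - XX o A true

/-- the number of indices of parity `b` -/
def num (o : ι → Bool) (b : Bool) : ℕ := (Finset.univ.filter fun i => o i = b).card

end Lin

section Real

variable {C : Type u} [Category.{v} C] [Preadditive C] [MonoidalCategory C] [SymmetricCategory C]
  [RightRigidCategory C] {K : Type w} [Field K] (R : SuperRealisation C K)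
  {ι : Type} [Fintype ι] [DecidableEq ι]

/-- Matrix units of the realisation of `M` for a basis `v_i` of homogeneous elements; `e i k` maps
`v_i` to `v_k`. -/
structure Units (M : C) (o : ι → Bool) (e : ι → ι → (R.H.obj M ⟶ R.H.obj M)) : Prop where
  mul : ∀ i k j l, e i k ≫ e j l = if k = j then e i l else 0
  sum : ∑ i, e i i = 𝟙 _
  par : R.par M = ∑ i, sg K (o i) • e i i
  tr : ∀ i k, LinearMap.trace K (R.H.obj M) (e i k).hom = if i = k then 1 else 0

/-- The endomorphism `a` of `M ⊗ X` is realised by the matrix `A`. -/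
def Re {M X : C} (e : ι → ι → (R.H.obj M ⟶ R.H.obj M)) (a : M ⊗ X ⟶ M ⊗ X)
    (A : ι → ι → Module.End K (R.H.obj X)) : Prop :=
  R.H.map a = ∑ i, ∑ k, bx R (e i k) (ModuleCat.ofHom (A k i))

/-- `P` is (by `i` and `r`) a direct summand of `X₁ ⊗ (X₂ ⊗ (... ⊗ N))` whose realisation is stable
under the action of `gl(M)`. -/
structure Summand (M N : C) (l : List Bool) (P : C) (i : P ⟶ mix M N l) (r : mix M N l ⟶ P) :
    Prop where
  ir : i ≫ r = 𝟙 P
  comm : R.H.map (M ◁ (r ≫ i) ≫ om M N l) = R.H.map (om M N l ≫ M ◁ (r ≫ i))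

end Real

section Real

variable {C : Type u} [Category.{v} C] [Preadditive C] [MonoidalCategory C] [SymmetricCategory C]
  [RightRigidCategory C] {K : Type w} [Field K] (R : SuperRealisation C K)
  {ι : Type} [Fintype ι] [DecidableEq ι]

/-- `A` is the matrix of the action `a` of `gl(M)` on `X`. -/
structure Good {M : C} (o : ι → Bool) (e : ι → ι → (R.H.obj M ⟶ R.H.obj M)) (X : C)
    (a : M ⊗ X ⟶ M ⊗ X) (A : ι → ι → Module.End K (R.H.obj X)) : Prop where
  re : Re R e a A
  rel : GlRel o A
  par : ParRel o (R.par X).hom A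

/-- The weights of `1 ∈ gl(odd part)` are integers, they give the parity; `1 ∈ gl(M)` acts by an
integer. -/
def Wt (o : ι → Bool) (X : C) (A : ι → ι → Module.End K (R.H.obj X)) : Prop :=
  (∃ (κ : Type) (_ : Fintype κ) (u : Module.Basis κ K (R.H.obj X)) (n : κ → ℤ),
    (∀ x, (∑ i with o i = true, A i i) (u x) = -(n x : K) • u x) ∧
    ∀ x, (R.par X).hom (u x) = ((-1 : K) ^ (n x)) • u x) ∧
  ∃ m : ℤ, (∑ i with o i = false, A i i) - (∑ i with o i = true, A i i) = (m : K) • 1

end Real

/-! ### Pieces: linear algebra -/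

/-- NIL: an operator is nilpotent if the traces of its powers vanish (characteristic 0). -/
def P_NIL : Prop := ∀ (K : Type w) [Field K] [CharZero K] (Q : Type w) [AddCommGroup Q] [Module K Q]
  [Module.Finite K Q] (N : Module.End K Q),
  (∀ n : ℕ, LinearMap.trace K Q (N ^ (n + 1)) = 0) → IsNilpotent N

/-- LA: if the traces of `Z ^ n X'` and `Z ^ n X` vanish then the odd part acts by zero.
Proof.  Write `a` for the indices with `o = false`, `b` for those with `o = true`, `p`, `q` for their
numbers, `X' = XX o A false = ∑ A a b A b a`, `X = XX o A true = ∑ A b a A a b`, `Z = X' - X`,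
`H = X + X'`, `d = p - q ≠ 0`.  `tr Z ^ (n + 1) = 0`, so `Z` is nilpotent (NIL).  `GlRel` gives
`A a b A b a + A b a A a b = A a a - A b b`, so `H = q ∑ A a a - p ∑ A b b`, and
`[A a a, A c b] = -δ_ac A a b`, `[A b' b', A c b] = -δ_b'b A c b`, `[A a a, A b c] = δ_ac A b c`,
`[A b' b', A b c] = δ_b'b A b c`, so `[H, A a b] = d A a b`, `[H, A b a] = -d A b a`.  Hence `H` commutes
with `X`, `X'`, `Z`, and `A b a H ^ j = (H + d) ^ j A b a`, so `tr (H ^ j X') = tr ((H + d) ^ j X)`.
As `X' = (H + Z) / 2`, `X = (H - Z) / 2` and `H ^ i Z` is nilpotent, `tr (H ^ j H) = tr ((H + d) ^ j H)` for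
all `j`.  By induction on `j` (the term of degree `j - 1` of `(H + d) ^ j` is `j d H ^ (j - 1)`) all
`tr (H ^ (j + 1)) = 0`, so `H` is nilpotent.  `d A a b = [H, A a b]` and `H` nilpotent give `A a b = 0`
(iterate: `d ^ n A a b = ad(H) ^ n (A a b)` is a sum of terms `H ^ i A a b H ^ (n - i)`), the same for
`A b a`. -/
def P_LA : Prop := ∀ (K : Type w) [Field K] [CharZero K] (ι : Type) [Fintype ι] [DecidableEq ι]
  (o : ι → Bool) (Q : Type w) [AddCommGroup Q] [Module K Q] [Module.Finite K Q]
  (A : ι → ι → Module.End K Q), GlRel o A → num o false ≠ num o true →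
  (∀ n : ℕ, LinearMap.trace K Q (ZZ o A ^ n * XX o A false) = 0 ∧
    LinearMap.trace K Q (ZZ o A ^ n * XX o A true) = 0) →
  ∀ k i, o k ≠ o i → A k i = 0

/-- SC: invariance.  `y` commutes with the even part.
Proof of the first formula: for `c, c'` of the parity of `k` take the trace of
`y [A c c', ∑_j A k j A j i] = 0` (use `GlRel` for `[A c c', A k j]` and `[A c c', A j i]`): one gets
`δ(k, c') f(c, i) = δ(c, i) f(k, c')` up to a common sign, for `f(k, i) = tr (y ∑_j A k j A j i)`; so `f` is
diagonal and constant on the diagonal.  Second formula: `tr (A k j y A j i) = tr (y A j i A k j)` and the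
same argument. -/
def P_SC : Prop := ∀ (K : Type w) [Field K] [CharZero K] (ι : Type) [Fintype ι] [DecidableEq ι]
  (o : ι → Bool) (Q : Type w) [AddCommGroup Q] [Module K Q] [Module.Finite K Q]
  (A : ι → ι → Module.End K Q), GlRel o A →
  (∀ c c', o c = o c' → Commute (ZZ o A) (A c c')) ∧
  ∀ y : Module.End K Q, (∀ c c', o c = o c' → Commute y (A c c')) → ∀ k i, o k = o i →
    (∑ j with o j ≠ o k, LinearMap.trace K Q (y * (A k j * A j i)) =
      if k = i then LinearMap.trace K Q (y * XX o A (o k)) / num o (o k) else 0) ∧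
    (∑ j with o j ≠ o k, LinearMap.trace K Q (A k j * y * A j i) =
      if k = i then LinearMap.trace K Q (y * XX o A (!(o k))) / num o (o k) else 0)

/-- WTL: if the odd part acts by zero on a stable summand then it is purely even or purely odd.
`i`, `r` are the inclusion and the projection, `s` the parity of the big space, `A` its matrix.
Proof.  On the summand `P` (matrix `r ∘ A k l ∘ i`, satisfying `GlRel`), `A a a = A b b` (from
`{A a b, A b a} = A a a - A b b`), so all `A a a`, `A b b` are equal to one operator `κ` and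
`p κ - q κ = m`, so `κ = m / (p - q)` and `∑ A b b = q m / (p - q)` is a scalar `-c` on `P`; the vectors of
`P` are in the eigenspace of `∑ A b b` for `-c` (as `i` commutes with it); in the basis `u` only the
`u x` with `n x = c` occur, so `s` acts by `(-1) ^ c`. -/
def P_WTL : Prop := ∀ (K : Type w) [Field K] [CharZero K] (ι : Type) [Fintype ι] [DecidableEq ι]
  (o : ι → Bool) (T P : Type w) [AddCommGroup T] [Module K T] [AddCommGroup P] [Module K P]
  (A : ι → ι → Module.End K T) (s : Module.End K T) (i : P →ₗ[K] T) (r : T →ₗ[K] P)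
  (κ : Type) [Fintype κ] (u : Module.Basis κ K T) (n : κ → ℤ) (m : ℤ),
  GlRel o A → num o false ≠ num o true → r ∘ₗ i = LinearMap.id →
  (∀ k l, Commute (i ∘ₗ r : Module.End K T) (A k l)) →
  (∀ x, (∑ j with o j = true, A j j) (u x) = -(n x : K) • u x) →
  (∀ x, s (u x) = ((-1 : K) ^ (n x)) • u x) →
  (∑ j with o j = false, A j j) - (∑ j with o j = true, A j j) = (m : K) • 1 →
  (∀ k l, o k ≠ o l → r ∘ₗ A k l ∘ₗ i = 0) →
  (∀ x, r (s (i x)) = x) ∨ ∀ x, r (s (i x)) = -x

/-! ### Pieces: the category -/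

/-- UNI: there are matrix units for a homogeneous basis (decompose by the involution `par`;
`par ^ 2 = 1`, characteristic 0). -/
def P_UNI : Prop := ∀ (C : Type u) [Category.{v} C] [Preadditive C] [Linear ℚ C]
  [MonoidalCategory C] [SymmetricCategory C] [RightRigidCategory C] (K : Type w) [Field K]
  (R : SuperRealisation C K) (M : C), ∃ (ι : Type) (_ : Fintype ι) (_ : DecidableEq ι)
    (o : ι → Bool) (e : ι → ι → (R.H.obj M ⟶ R.H.obj M)), Units R M o e

/-- RAT: an endomorphism whose realisation is a combination of `1` and `par` with `par` really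
occurring gives the sign conjecture.
Proof.  If `par M = ± 1` trivial.  Otherwise `p, q ≥ 1` are the dimensions of the even and odd part (see
`exists_pq`), `l₀ = a + b`, `l₁ = a - b` the eigenvalues, `s_j = p l₀ ^ j - q l₁ ^ j` is the trace of
`H(f ^ j) ≫ par`, and it is rational (the partial trace over `M` of `𝟙 ⊗ f ^ j` is an endomorphism of the
unit; `PT_map`, `PT_bx`, `UnitQ`).  `s₁ ^ 2 - s₀ s₂ = p q (l₀ - l₁) ^ 2 ≠ 0`,
`(l₀ + l₁) (s₁ ^ 2 - s₀ s₂) = s₁ s₂ - s₀ s₃`, `(p + q) l₀ = s₁ + q (l₀ + l₁)`: so `l₀`, `l₁` are rational,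
and `par M` is the realisation of `(f - a) / b`. -/
def P_RAT : Prop := ∀ (C : Type u) [Category.{v} C] [Preadditive C] [Linear ℚ C]
  [MonoidalCategory C] [MonoidalPreadditive C] [MonoidalLinear ℚ C] [SymmetricCategory C]
  [RightRigidCategory C] (K : Type w) [Field K]
  (R : SuperRealisation C K) (M : C), UnitQ C → ∀ (f : M ⟶ M) (a b : K),
  R.H.map f = a • 𝟙 _ + b • R.par M → b ≠ 0 → R.CPlus M

/-- DUA: the sign conjecture for the dual (transpose with `η_`, `ε_`; compare `zigzag`, `evb_even`
in `SR/Lin.lean`) and for `mix`. -/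
def P_DUA : Prop := ∀ (C : Type u) [Category.{v} C] [Preadditive C] [Linear ℚ C]
  [MonoidalCategory C] [MonoidalPreadditive C] [MonoidalLinear ℚ C] [SymmetricCategory C]
  [RightRigidCategory C] (K : Type w) [Field K]
  (R : SuperRealisation C K) (M : C), (R.CPlus Mᘁ ↔ R.CPlus M) ∧
    ∀ N : C, R.CPlus N → R.CPlus M → ∀ l : List Bool, R.CPlus (mix M N l)

/-- BRX: the symmetry and even or odd operators.  (Even: as `bx_braid`.  From `R.symm`, `par_sq`.) -/
def P_BRX : Prop := ∀ (C : Type u) [Category.{v} C] [Preadditive C] [Linear ℚ C]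
  [MonoidalCategory C] [MonoidalPreadditive C] [MonoidalLinear ℚ C] [SymmetricCategory C]
  [RightRigidCategory C] (K : Type w) [Field K]
  (R : SuperRealisation C K) (M X : C) (c : R.H.obj M ⟶ R.H.obj M) (d : R.H.obj X ⟶ R.H.obj X),
  (c ≫ R.par M = R.par M ≫ c → d ≫ R.par X = R.par X ≫ d →
    R.H.map (β_ M X).hom ≫ bx R d c ≫ R.H.map (β_ X M).hom = bx R c d) ∧
  (c ≫ R.par M = -(R.par M ≫ c) →
    R.H.map (β_ M X).hom ≫ bx R (𝟙 _) c ≫ R.H.map (β_ X M).hom = bx R c (R.par X))

/-- SEL: the action on `M` itself, `A k i = (-1)^(o i o k) e k i`.  (`R.symm`: the super symmetry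
in terms of matrix units.  `R.H.map β = ∑ cc (o i) (o k) bx (e i k) (e k i)`.) -/
def P_SEL : Prop := ∀ (C : Type u) [Category.{v} C] [Preadditive C] [Linear ℚ C]
  [MonoidalCategory C] [MonoidalPreadditive C] [MonoidalLinear ℚ C] [SymmetricCategory C]
  [RightRigidCategory C] (K : Type w) [Field K]
  (R : SuperRealisation C K) (M : C) (ι : Type) [Fintype ι] [DecidableEq ι] (o : ι → Bool)
  (e : ι → ι → (R.H.obj M ⟶ R.H.obj M)), Units R M o e →
  Good R o e M (β_ M M).hom (fun k i => cc K (o i) (o k) • (e k i).hom) ∧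
  Wt R o M (fun k i => cc K (o i) (o k) • (e k i).hom)

/-- DUL: the action on the dual, `A k i w = -(-1)^(o i) ⟨w, v_i⟩ v^k` (`coe`, `eva`, `evb`, `eva_eq`,
`zigzag` of `SR/Lin.lean`; `v^k` is the basis of `H(M^∨)` dual to `v_k` for `evb`; `e' i k` maps `v^i` to
`v^k`; `coe` is `∑ v_k ⊗ v^k`). -/
def P_DUL : Prop := ∀ (C : Type u) [Category.{v} C] [Preadditive C] [Linear ℚ C]
  [MonoidalCategory C] [MonoidalPreadditive C] [MonoidalLinear ℚ C] [SymmetricCategory C]
  [RightRigidCategory C] (K : Type w) [Field K]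
  (R : SuperRealisation C K) (M : C) (ι : Type) [Fintype ι] [DecidableEq ι] (o : ι → Bool)
  (e : ι → ι → (R.H.obj M ⟶ R.H.obj M)), Units R M o e →
  ∃ e' : ι → ι → (R.H.obj Mᘁ ⟶ R.H.obj Mᘁ), Units R Mᘁ o e' ∧
    Good R o e Mᘁ (omD M) (fun k i => -(sg K (o i)) • (e' i k).hom) ∧
    Wt R o Mᘁ (fun k i => -(sg K (o i)) • (e' i k).hom)

/-- the matrix of the action on a tensor product -/
noncomputable def tenA {C : Type u} [Category.{v} C] [Preadditive C] [MonoidalCategory C]
    [SymmetricCategory C] {K : Type w} [Field K] (R : SuperRealisation C K)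
    {ι : Type} (o : ι → Bool) {X Y : C} (A : ι → ι → Module.End K (R.H.obj X))
    (B : ι → ι → Module.End K (R.H.obj Y)) (k i : ι) : Module.End K (R.H.obj (X ⊗ Y)) :=
  (bx R (ModuleCat.ofHom (A k i)) (𝟙 _) +
    bx R (if o k = o i then 𝟙 _ else R.par X) (ModuleCat.ofHom (B k i))).hom

/-- TEN: the action on a tensor product, the realisation of `omT` (`bx_assoc`, `bx_map`, BRX). -/
def P_TEN : Prop := P_BRX.{v, u, w} → ∀ (C : Type u) [Category.{v} C] [Preadditive C] [Linear ℚ C]
  [MonoidalCategory C] [MonoidalPreadditive C] [MonoidalLinear ℚ C] [SymmetricCategory C]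
  [RightRigidCategory C] (K : Type w) [Field K]
  (R : SuperRealisation C K) (M X Y : C) (ι : Type) [Fintype ι] [DecidableEq ι] (o : ι → Bool)
  (e : ι → ι → (R.H.obj M ⟶ R.H.obj M)), Units R M o e →
  ∀ (a : M ⊗ X ⟶ M ⊗ X) (b : M ⊗ Y ⟶ M ⊗ Y) A B, Re R e a A → Re R e b B →
  Re R e (omT a b) (tenA R o A B)

/-- TER: the relations for a tensor product (`bx_comp`, `bx_par`; the mixed terms cancel by
`ParRel`). -/
def P_TER : Prop := ∀ (C : Type u) [Category.{v} C] [Preadditive C] [Linear ℚ C]
  [MonoidalCategory C] [MonoidalPreadditive C] [MonoidalLinear ℚ C] [SymmetricCategory C]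
  [RightRigidCategory C] (K : Type w) [Field K]
  (R : SuperRealisation C K) (X Y : C) (ι : Type) [Fintype ι] [DecidableEq ι] (o : ι → Bool)
  (A : ι → ι → Module.End K (R.H.obj X)) (B : ι → ι → Module.End K (R.H.obj Y)),
  GlRel o A → ParRel o (R.par X).hom A → GlRel o B → ParRel o (R.par Y).hom B →
  GlRel o (tenA R o A B) ∧ ParRel o (R.par (X ⊗ Y)).hom (tenA R o A B)

/-- TEW: the weights for a tensor product (basis of `H(X ⊗ Y)`: the images under `μ` of the
`u ⊗ u'`; `Module.Basis.tensorProduct`). -/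
def P_TEW : Prop := ∀ (C : Type u) [Category.{v} C] [Preadditive C] [Linear ℚ C]
  [MonoidalCategory C] [MonoidalPreadditive C] [MonoidalLinear ℚ C] [SymmetricCategory C]
  [RightRigidCategory C] (K : Type w) [Field K]
  (R : SuperRealisation C K) (X Y : C) (ι : Type) [Fintype ι] [DecidableEq ι] (o : ι → Bool)
  (A : ι → ι → Module.End K (R.H.obj X)) (B : ι → ι → Module.End K (R.H.obj Y)),
  Wt R o X A → Wt R o Y B → Wt R o (X ⊗ Y) (tenA R o A B)

/-- SUM: the action on a stable summand.  (The matrix entries of an endomorphism of `M ⊗ T` are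
unique: multiply by `bx (e i k) 1`, `PT_bx`; so `comm` says that `H(r ≫ i)` commutes with all entries
of `A`.) -/
def P_SUM : Prop := ∀ (C : Type u) [Category.{v} C] [Preadditive C] [Linear ℚ C]
  [MonoidalCategory C] [MonoidalPreadditive C] [MonoidalLinear ℚ C] [SymmetricCategory C]
  [RightRigidCategory C] (K : Type w) [Field K]
  (R : SuperRealisation C K) (M T P : C) (ι : Type) [Fintype ι] [DecidableEq ι] (o : ι → Bool)
  (e : ι → ι → (R.H.obj M ⟶ R.H.obj M)), Units R M o e →
  ∀ (a : M ⊗ T ⟶ M ⊗ T) A, Good R o e T a A → ∀ (i : P ⟶ T) (r : T ⟶ P), i ≫ r = 𝟙 P →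
  R.H.map (M ◁ (r ≫ i) ≫ a) = R.H.map (a ≫ M ◁ (r ≫ i)) →
  (∀ k l, Commute (R.H.map (r ≫ i)).hom (A k l)) ∧
  Good R o e P (M ◁ i ≫ a ≫ M ◁ r) (fun k l => (R.H.map r).hom ∘ₗ A k l ∘ₗ (R.H.map i).hom)

/-- NET: the odd part of the action, its square and the operator `Z` are algebraic.
`ν = (a - (M ◁ g) a (M ◁ g)) / 2` has the matrix of the odd entries of `A`; `z` is the partial trace
over `M` of `ν ≫ ν` after the symmetry (BRX, `PT_map`, `PT_bx`). -/
def P_NET : Prop := P_BRX.{v, u, w} → ∀ (C : Type u) [Category.{v} C] [Preadditive C] [Linear ℚ C]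
  [MonoidalCategory C] [MonoidalPreadditive C] [MonoidalLinear ℚ C] [SymmetricCategory C]
  [RightRigidCategory C] (K : Type w) [Field K]
  (R : SuperRealisation C K) (M X : C) (ι : Type) [Fintype ι] [DecidableEq ι] (o : ι → Bool)
  (e : ι → ι → (R.H.obj M ⟶ R.H.obj M)), Units R M o e →
  ∀ (a : M ⊗ X ⟶ M ⊗ X) A, Good R o e X a A → ∀ g : X ⟶ X, R.H.map g = R.par X →
  ∃ (ν : M ⊗ X ⟶ M ⊗ X) (z : X ⟶ X),
    Re R e ν (fun k i => if o k ≠ o i then A k i else 0) ∧ (R.H.map z).hom = ZZ o A

/-- TRA: the partial traces.  `f` is the realisation of the partial trace of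
`ν ≫ ν ≫ M ◁ (z ^ n ≫ g)`, `-f'` that of `ν ≫ M ◁ (z ^ n ≫ g) ≫ ν` (the sign: odd entries anticommute
with `par`) (`PT_bx`, SC). -/
def P_TRA : Prop := P_SC.{w} → ∀ (C : Type u) [Category.{v} C] [Preadditive C] [Linear ℚ C]
  [MonoidalCategory C] [MonoidalPreadditive C] [MonoidalLinear ℚ C] [SymmetricCategory C]
  [RightRigidCategory C] (K : Type w) [Field K]
  (R : SuperRealisation C K) (M X : C) (ι : Type) [Fintype ι] [DecidableEq ι] (o : ι → Bool)
  (e : ι → ι → (R.H.obj M ⟶ R.H.obj M)), Units R M o e →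
  ∀ (a : M ⊗ X ⟶ M ⊗ X) A, Good R o e X a A → ∀ g : X ⟶ X, R.H.map g = R.par X →
  ∀ (ν : M ⊗ X ⟶ M ⊗ X) (z : X ⟶ X),
    Re R e ν (fun k i => if o k ≠ o i then A k i else 0) → (R.H.map z).hom = ZZ o A →
  ∀ n : ℕ, ∃ f f' : M ⟶ M,
    R.H.map f = ∑ k, (LinearMap.trace K _ (ZZ o A ^ n * XX o A (o k)) / num o (o k)) • e k k ∧
    R.H.map f' = ∑ k, (LinearMap.trace K _ (ZZ o A ^ n * XX o A (!(o k))) / num o (o k)) • e k k

/-- EQN: the case of equal dimensions; `t` is an endomorphism of `X ⊗ Y` whose realisation commutes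
with the even part of the action (matrix `tenA A B`; up to scalars the even entries of `A` are the
matrix units `e k i`).
Proof.  The realisation of `ptr t` commutes with the `e k i`, `o k = o i` (it is the partial trace;
`1 ⊗ B` drops out by cyclicity, as the even entries of `B` commute with `par`), so it is a combination
of `1` and `par` (matrix units); as `C⁺` fails for `X` it is a scalar (RAT), so the super trace of `t`
(`trace_PT`) is this scalar times `p - q = 0`. -/
def P_EQN : Prop := P_RAT.{v, u, w} → ∀ (C : Type u) [Category.{v} C] [Preadditive C] [Linear ℚ C]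
  [MonoidalCategory C] [MonoidalPreadditive C] [MonoidalLinear ℚ C] [SymmetricCategory C]
  [RightRigidCategory C] (K : Type w) [Field K]
  (R : SuperRealisation C K) (X Y : C) (ι : Type) [Fintype ι] [DecidableEq ι] (o : ι → Bool)
  (e : ι → ι → (R.H.obj X ⟶ R.H.obj X)), Units R X o e → UnitQ C → num o false = num o true →
  ¬ R.CPlus X → ∀ (A : ι → ι → Module.End K (R.H.obj X)) (B : ι → ι → Module.End K (R.H.obj Y)),
  (∀ k i, o k = o i → ∃ (k' i' : ι) (c : K), o k' = o i' ∧ (e k i).hom = c • A k' i') →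
  ParRel o (R.par Y).hom B → ∀ t : X ⊗ Y ⟶ X ⊗ Y,
  (∀ k i, o k = o i → Commute (R.H.map t).hom (tenA R o A B k i)) →
  LinearMap.trace K _ (R.H.map t ≫ R.par (X ⊗ Y)).hom = 0

end Pool.Agent.W2helper37.SG
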